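import Mathlib

set_option autoImplicit false

/-! Dissociated sets and the largest size of a dissociated set. -/

namespace Pool.Agent.Lib.MP_3a3582_co

/-- `A` is dissociated: there is no nonempty `B ⊆ A` with signs `ε b ∈ {1, -1}` such that
`∑ b ∈ B, ε b • b = 0`. -/
def Dissociated {G : Type} [AddCommGroup G] (A : Finset G) : Prop :=
  ¬ ∃ B ⊆ A, B.Nonempty ∧ ∃ ε : G → ℤ, (∀ b ∈ B, ε b = 1 ∨ ε b = -1) ∧ ∑ b ∈ B, ε b • b = 0

/-- `tau G` is the largest size of a dissociated subset of the finite abelian group `G`. -/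
noncomputable def tau (G : Type) [AddCommGroup G] : ℕ :=
  sSup {k | ∃ A : Finset G, Dissociated A ∧ A.card = k}

end Pool.Agent.Lib.MP_3a3582_co
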