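import Mathlib
import Pool.Agent.Lib.MP_3a3582_co.Defs

set_option autoImplicit false
set_option linter.unusedSectionVars false
set_option linter.unusedVariables false

/-! Basic facts on dissociated sets. -/

namespace Pool.Agent.Lib.MP_3a3582_co

open Finset

variable {G : Type} [AddCommGroup G]

lemma bddAbove_tau [Finite G] : BddAbove {k | ∃ A : Finset G, Dissociated A ∧ A.card = k} := by
  have := Fintype.ofFinite G
  refine ⟨Fintype.card G, ?_⟩
  rintro k ⟨A, -, rfl⟩
  exact card_le_univ A

lemma dissociated_empty : Dissociated (∅ : Finset G) := by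
  rintro ⟨B, hB, hne, -⟩
  rw [subset_empty] at hB
  rw [hB] at hne
  exact not_nonempty_empty hne

lemma le_tau [Finite G] {A : Finset G} (h : Dissociated A) : A.card ≤ tau G :=
  le_csSup bddAbove_tau ⟨A, h, rfl⟩

lemma exists_tau [Finite G] : ∃ A : Finset G, Dissociated A ∧ A.card = tau G :=
  Nat.sSup_mem (s := {k | ∃ A : Finset G, Dissociated A ∧ A.card = k})
    ⟨0, ∅, dissociated_empty, rfl⟩ bddAbove_tau

/-- For a dissociated set, a vanishing combination with coefficients `-1, 0, 1` is trivial. -/
lemma Dissociated.coeff {A : Finset G} (h : Dissociated A) (ε : G → ℤ)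
    (hε : ∀ a ∈ A, |ε a| ≤ 1) (hs : ∑ a ∈ A, ε a • a = 0) : ∀ a ∈ A, ε a = 0 := by
  classical
  by_contra hcon
  push Not at hcon
  obtain ⟨a, ha, ha0⟩ := hcon
  apply h
  refine ⟨A.filter (fun a => ε a ≠ 0), filter_subset _ _, ⟨a, by simp [ha, ha0]⟩, ε, ?_, ?_⟩
  · intro b hb
    rw [mem_filter] at hb
    have := abs_le.mp (hε b hb.1)
    have := hb.2
    omega
  · rw [← hs, sum_filter]
    apply sum_congr rfl
    intro b _
    by_cases hb : ε b = 0
    · simp [hb]
    · simp [hb]

/-- A family without nontrivial relations with coefficients `-1, 0, 1` bounds `tau` from below. -/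
lemma family_le_tau [Finite G] {ι : Type} [Fintype ι] (g : ι → G)
    (h : ∀ ε : ι → ℤ, (∀ i, |ε i| ≤ 1) → ∑ i, ε i • g i = 0 → ε = 0) :
    Fintype.card ι ≤ tau G := by
  classical
  have hinj : Function.Injective g := by
    intro i j hij
    by_contra hne
    have h1 := h (Pi.single i 1 - Pi.single j 1) (by
      intro k
      by_cases h1 : k = i
      · subst h1
        rw [Pi.sub_apply, Pi.single_eq_same, Pi.single_eq_of_ne hne]
        norm_num
      · by_cases h2 : k = j
        · subst h2
          rw [Pi.sub_apply, Pi.single_eq_same, Pi.single_eq_of_ne h1]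
          norm_num
        · rw [Pi.sub_apply, Pi.single_eq_of_ne h1, Pi.single_eq_of_ne h2]
          norm_num) (by
      simp only [Pi.sub_apply, sub_smul, sum_sub_distrib, Pi.single_apply, ite_smul, one_smul,
        zero_smul, sum_ite_eq', mem_univ, if_true]
      rw [hij]; simp)
    have h2 := congrFun h1 i
    rw [Pi.sub_apply, Pi.single_eq_same, Pi.single_eq_of_ne hne] at h2
    norm_num at h2
  have hd : Dissociated (univ.image g) := by
    rintro ⟨B, hB, ⟨b, hb⟩, ε, hε, hs⟩
    have h1 := h (fun i => if g i ∈ B then ε (g i) else 0) (by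
      intro i
      by_cases hi : g i ∈ B
      · simp only [hi, if_true]
        rcases hε _ hi with h | h <;> rw [h] <;> norm_num
      · simp [hi]) (by
      rw [← hs]
      have h2 : B = (univ.filter (fun i => g i ∈ B)).image g := by
        ext x
        simp only [mem_image, mem_filter, mem_univ, true_and]
        constructor
        · intro hx
          obtain ⟨i, -, rfl⟩ := mem_image.mp (hB hx)
          exact ⟨i, hx, rfl⟩
        · rintro ⟨i, hi, rfl⟩
          exact hi
      conv_rhs => rw [h2]
      rw [sum_image (fun x _ y _ hxy => hinj hxy), sum_filter]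
      apply sum_congr rfl
      intro i _
      by_cases hi : g i ∈ B <;> simp [hi])
    obtain ⟨i, -, rfl⟩ := mem_image.mp (hB hb)
    have h2 := congrFun h1 i
    simp only [hb, if_true, Pi.zero_apply] at h2
    rcases hε _ hb with h | h <;> omega
  have h1 := le_tau hd
  rwa [card_image_of_injective _ hinj, card_univ] at h1

/-- The trivial upper bound. -/
lemma pow_card_le [Finite G] {A : Finset G} (h : Dissociated A) : 2 ^ A.card ≤ Nat.card G := by
  classical
  have := Fintype.ofFinite G
  rw [Nat.card_eq_fintype_card, ← card_powerset, ← card_univ]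
  apply card_le_card_of_injOn (fun S => ∑ x ∈ S, x) (fun _ _ => by simp)
  intro S hS T hT hST
  simp only [coe_powerset, Set.mem_preimage, Set.mem_powerset_iff, coe_subset] at hS hT
  have h1 := h.coeff (fun x => (if x ∈ S then 1 else 0) - (if x ∈ T then 1 else 0)) (by
    intro a _
    split_ifs <;> norm_num) (by
    simp only [sub_smul, sum_sub_distrib, ite_smul, one_smul, zero_smul]
    rw [← sum_filter, ← sum_filter, filter_mem_eq_inter, filter_mem_eq_inter,
      inter_eq_right.mpr hS, inter_eq_right.mpr hT]
    exact sub_eq_zero.mpr hST)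
  ext x
  by_cases hx : x ∈ A
  · have h2 := h1 x hx
    by_cases hxS : x ∈ S <;> by_cases hxT : x ∈ T <;> simp [hxS, hxT] at h2 ⊢
  · exact ⟨fun hxS => absurd (hS hxS) hx, fun hxT => absurd (hT hxT) hx⟩

lemma pow_tau_le [Finite G] : 2 ^ tau G ≤ Nat.card G := by
  obtain ⟨A, hA, hAc⟩ := exists_tau (G := G)
  rw [← hAc]
  exact pow_card_le hA

lemma tau_le_log [Finite G] : tau G ≤ Nat.log 2 (Nat.card G) :=
  Nat.le_log_of_pow_le (by norm_num) pow_tau_le

end Pool.Agent.Lib.MP_3a3582_co
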