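import Mathlib
import Pool.Agent.Lib.MP_3a3582_co.Basic

section

set_option autoImplicit false
set_option linter.unusedSectionVars false
set_option linter.unusedVariables false

/-! The packing construction, one cyclic factor at a time. -/

namespace Pool.Agent.Lib.MP_3a3582_co

open Finset

lemma bin_zero : ∀ (a : ℕ) (c : Fin a → ℤ), (∀ k, |c k| ≤ 1) →
    ∑ k, c k * 2 ^ (k : ℕ) = 0 → c = 0 := by
  intro a
  induction a with
  | zero => intro c _ _; ext k; exact k.elim0
  | succ a ih =>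
    intro c hc hs
    rw [Fin.sum_univ_succ] at hs
    have h1 : ∑ k : Fin a, c k.succ * 2 ^ ((k.succ : Fin (a + 1)) : ℕ) =
        2 * ∑ k : Fin a, c k.succ * 2 ^ (k : ℕ) := by
      rw [mul_sum]
      apply sum_congr rfl
      intro k _
      rw [Fin.val_succ, pow_succ]; ring
    rw [h1] at hs
    simp only [Fin.val_zero, pow_zero, mul_one] at hs
    have h0 := abs_le.mp (hc 0)
    have hc0 : c 0 = 0 := by omega
    have hs' : ∑ k : Fin a, c k.succ * 2 ^ (k : ℕ) = 0 := by omega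
    have h2 := ih (fun k => c k.succ) (fun k => hc _) hs'
    ext k
    refine Fin.cases ?_ ?_ k
    · exact hc0
    · intro k; exact congrFun h2 k

lemma bin_bound : ∀ (a : ℕ) (c : Fin a → ℤ), (∀ k, |c k| ≤ 1) →
    |∑ k, c k * 2 ^ (k : ℕ)| < 2 ^ a := by
  intro a
  induction a with
  | zero => intro c _; simp
  | succ a ih =>
    intro c hc
    rw [Fin.sum_univ_castSucc]
    have h1 := ih (fun k => c k.castSucc) (fun k => hc _)
    have h2 := hc (Fin.last a)
    simp only [Fin.val_castSucc, Fin.val_last]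
    calc |∑ k : Fin a, c k.castSucc * 2 ^ (k : ℕ) + c (Fin.last a) * 2 ^ a|
        ≤ |∑ k : Fin a, c k.castSucc * 2 ^ (k : ℕ)| + |c (Fin.last a) * 2 ^ a| := abs_add_le _ _
      _ = |∑ k : Fin a, c k.castSucc * 2 ^ (k : ℕ)| + |c (Fin.last a)| * 2 ^ a := by
          rw [abs_mul, abs_of_pos (by positivity : (0 : ℤ) < 2 ^ a)]
      _ ≤ |∑ k : Fin a, c k.castSucc * 2 ^ (k : ℕ)| + 1 * 2 ^ a := by
          have : |c (Fin.last a)| * 2 ^ a ≤ 1 * 2 ^ a :=
            mul_le_mul_of_nonneg_right h2 (by positivity)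
          linarith
      _ < 2 ^ a + 1 * 2 ^ a := by linarith
      _ = 2 ^ (a + 1) := by ring

/-- The arithmetic of going around a cyclic group. -/
lemma around {n q x e A P J α d : ℤ} (hn : 0 < n) (hq : 0 < q) (he : 0 ≤ e) (heq : e < q)
    (hqx : q * x = n + e) (hJ : J ≤ A * q) (hx : P + A * e ≤ x) (hα : |α| < P) (hd : |d| < J)
    (hdvd : n ∣ α + d * x) : ∃ t : ℤ, d = q * t ∧ α = -(t * e) ∧ |t| ≤ A - 1 := by
  obtain ⟨hα1, hα2⟩ := abs_lt.mp hα
  obtain ⟨hd1, hd2⟩ := abs_lt.mp hd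
  set t := d / q with ht
  set s := d % q with hs
  have hds : d = q * t + s := (Int.mul_ediv_add_emod d q).symm
  have hs0 : 0 ≤ s := Int.emod_nonneg _ hq.ne'
  have hsq : s < q := Int.emod_lt_of_pos _ hq
  have hP : 0 < P := lt_of_le_of_lt (abs_nonneg _) hα
  have hJ0 : 0 < J := lt_of_le_of_lt (abs_nonneg _) hd
  have hA0 : 0 < A := by
    by_contra hcon
    push Not at hcon
    nlinarith
  have hx0 : 0 < x := by nlinarith
  -- bounds on t
  have ht1 : -A ≤ t := by
    by_contra hcon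
    push Not at hcon
    have : t ≤ -A - 1 := by omega
    have h1 : q * t ≤ q * (-A - 1) := mul_le_mul_of_nonneg_left this hq.le
    nlinarith
  have ht2 : t ≤ A - 1 := by
    by_contra hcon
    push Not at hcon
    have : A ≤ t := by omega
    have h1 : q * A ≤ q * t := mul_le_mul_of_nonneg_left this hq.le
    nlinarith
  have hv : α + d * x = n * t + (α + t * e + s * x) := by
    have : d * x = t * (q * x) + s * x := by rw [hds]; ring
    rw [this, hqx]; ring
  have hdv : n ∣ α + t * e + s * x := by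
    rw [hv] at hdvd
    exact (dvd_add_right (dvd_mul_right n t)).mp hdvd
  have hte1 : -(A * e) ≤ t * e := by nlinarith
  have hte2 : t * e ≤ (A - 1) * e := mul_le_mul_of_nonneg_right ht2 he
  by_cases hs1 : s = 0
  · rw [hs1, zero_mul, add_zero] at hdv
    have hxn : x ≤ n := by nlinarith
    have hlt : |α + t * e| < n := by
      rw [abs_lt]
      constructor
      · nlinarith
      · nlinarith
    have h0 : α + t * e = 0 := Int.eq_zero_of_abs_lt_dvd hdv hlt
    refine ⟨t, by rw [hds, hs1, add_zero], by linarith, ?_⟩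
    rw [abs_le]
    refine ⟨?_, ht2⟩
    by_contra hcon
    push Not at hcon
    have : t = -A := by omega
    rw [hs1, this] at hds
    nlinarith
  · exfalso
    have hs1' : 1 ≤ s := by omega
    have h1 : x ≤ s * x := by nlinarith
    have h2 : s * x ≤ (q - 1) * x := mul_le_mul_of_nonneg_right (by omega) hx0.le
    have h3 : 0 < α + t * e + s * x := by linarith
    have h4 : α + t * e + s * x < n := by nlinarith
    have := Int.le_of_dvd h3 hdv
    linarith

section
variable {κ : Type} [Fintype κ] [DecidableEq κ] (n : κ → ℕ)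

/-- There are `s` elements supported on `S`, together with integers, such that every
nontrivial vanishing combination with coefficients `-1, 0, 1` has its integer combination in
absolute value between `I` and `Y - I`. -/
def Q (S : Finset κ) (s : ℕ) (I Y : ℤ) : Prop :=
  I ≤ Y ∧ ∃ (ι : Type) (_ : Fintype ι) (g : ι → ∀ i, ZMod (n i)) (z : ι → ℤ),
    Fintype.card ι = s ∧ (∀ k, ∀ i, i ∉ S → g k i = 0) ∧
    ∀ ε : ι → ℤ, (∀ k, |ε k| ≤ 1) → ∑ k, ε k • g k = 0 → ε ≠ 0 →
      I ≤ |∑ k, ε k * z k| ∧ |∑ k, ε k * z k| ≤ Y - I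

lemma Q_empty (I : ℤ) : Q n ∅ 0 I I := by
  refine ⟨le_refl _, Fin 0, inferInstance, fun k => k.elim0, fun k => k.elim0, by simp, ?_, ?_⟩
  · intro k; exact k.elim0
  · intro ε _ _ h
    exfalso
    apply h
    ext k
    exact k.elim0

lemma Q_step {S : Finset κ} {s : ℕ} {I Y : ℤ} (h : Q n S s I Y) {i : κ} (hi : i ∉ S)
    {a b : ℕ} {q x e A y : ℤ} (hI : 0 < I) (hn : 0 < n i) (hq : 0 < q) (he : 0 ≤ e) (heq : e < q)
    (hqx : q * x = n i + e) (hJ : 2 ^ b ≤ A * q) (hx : 2 ^ a + A * e ≤ x) (hA : 0 < A)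
    (hy : Y ≤ q * y) : Q n (insert i S) (s + (a + b)) I (A * (q * y)) := by
  obtain ⟨hIY, ι, _, g, z, hcard, hsupp, hrel⟩ := h
  have hY : Y ≤ A * (q * y) := by nlinarith
  refine ⟨hIY.trans hY, ι ⊕ (Fin a ⊕ Fin b), inferInstance,
    Sum.elim g (Sum.elim (fun k => Pi.single i ((2 : ZMod (n i)) ^ (k : ℕ)))
      (fun k => Pi.single i ((x : ZMod (n i)) * 2 ^ (k : ℕ)))),
    Sum.elim z (Sum.elim (fun _ => 0) (fun k => y * 2 ^ (k : ℕ))), ?_, ?_, ?_⟩
  · simp [hcard]
  · rintro (k | k | k) j hj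
    · rw [mem_insert, not_or] at hj
      exact hsupp k j hj.2
    · rw [mem_insert, not_or] at hj
      simp only [Sum.elim_inr, Sum.elim_inl]
      rw [Pi.single_eq_of_ne hj.1]
    · rw [mem_insert, not_or] at hj
      simp only [Sum.elim_inr]
      rw [Pi.single_eq_of_ne hj.1]
  · intro ε hε hsum hne
    set ε1 : ι → ℤ := fun k => ε (Sum.inl k) with hε1
    set ε2 : Fin a → ℤ := fun k => ε (Sum.inr (Sum.inl k)) with hε2
    set ε3 : Fin b → ℤ := fun k => ε (Sum.inr (Sum.inr k)) with hε3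
    have hb1 : ∀ k, |ε1 k| ≤ 1 := fun k => hε _
    have hb2 : ∀ k, |ε2 k| ≤ 1 := fun k => hε _
    have hb3 : ∀ k, |ε3 k| ≤ 1 := fun k => hε _
    simp only [Fintype.sum_sum_type, Sum.elim_inl, Sum.elim_inr, mul_zero, sum_const_zero,
      zero_add] at hsum ⊢
    set α := ∑ k : Fin a, ε2 k * 2 ^ (k : ℕ) with hα
    set d := ∑ k : Fin b, ε3 k * 2 ^ (k : ℕ) with hd
    -- coordinates
    have hcoord : ∀ j, ∑ k, ε1 k • g k j + (∑ k : Fin a, ε2 k •
        (Pi.single i ((2 : ZMod (n i)) ^ (k : ℕ)) : ∀ i, ZMod (n i)) j + ∑ k : Fin b, ε3 k •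
        (Pi.single i ((x : ZMod (n i)) * 2 ^ (k : ℕ)) : ∀ i, ZMod (n i)) j) = 0 := by
      intro j
      have := congrFun hsum j
      simpa [Finset.sum_apply] using this
    have hg0 : ∑ k, ε1 k • g k = 0 := by
      ext j
      rw [Finset.sum_apply]
      simp only [Pi.smul_apply, Pi.zero_apply]
      by_cases hj : j = i
      · subst hj
        apply sum_eq_zero
        intro k _
        rw [hsupp k _ hi, smul_zero]
      · have h1 := hcoord j
        simp only [Pi.single_eq_of_ne hj, smul_zero, sum_const_zero, add_zero] at h1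
        exact h1
    have hdvd : (n i : ℤ) ∣ α + d * x := by
      have h1 := hcoord i
      simp only [hsupp _ _ hi, smul_zero, sum_const_zero, zero_add, Pi.single_eq_same] at h1
      rw [← ZMod.intCast_zmod_eq_zero_iff_dvd]
      rw [← h1, hα, hd]
      push_cast
      rw [sum_mul]
      simp only [zsmul_eq_mul]
      congr 1
      apply sum_congr rfl
      intro k _
      ring
    have hα' : |α| < 2 ^ a := bin_bound a ε2 hb2
    have hd' : |d| < 2 ^ b := bin_bound b ε3 hb3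
    obtain ⟨t, ht1, ht2, ht3⟩ := around (by exact_mod_cast hn) hq he heq hqx hJ hx hα' hd' hdvd
    have hz : ∑ k, ε1 k * z k + ∑ k : Fin b, ε3 k * (y * 2 ^ (k : ℕ)) =
        ∑ k, ε1 k * z k + t * (q * y) := by
      have : ∑ k : Fin b, ε3 k * (y * 2 ^ (k : ℕ)) = d * y := by
        rw [hd, sum_mul]
        apply sum_congr rfl
        intro k _; ring
      rw [this, ht1]; ring
    rw [hz]
    have hz1 : |∑ k, ε1 k * z k| ≤ Y - I := by
      by_cases h1 : ε1 = 0
      · rw [h1]; simp; linarith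
      · exact (hrel ε1 hb1 hg0 h1).2
    set Z := ∑ k, ε1 k * z k with hZ
    by_cases ht0 : t = 0
    · rw [ht0, zero_mul, add_zero]
      rw [ht0, mul_zero] at ht1
      rw [ht0, zero_mul, neg_zero] at ht2
      have h2 : ε2 = 0 := bin_zero a ε2 hb2 ht2
      have h3 : ε3 = 0 := bin_zero b ε3 hb3 ht1
      have h1 : ε1 ≠ 0 := by
        intro h1
        apply hne
        ext k
        rcases k with k | k | k
        · exact congrFun h1 k
        · exact congrFun h2 k
        · exact congrFun h3 k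
      have h4 := (hrel ε1 hb1 hg0 h1).1
      exact ⟨h4, by linarith⟩
    · have htabs : 1 ≤ |t| := Int.one_le_abs ht0
      have hX : 0 < q * y := by linarith
      have habs : |t * (q * y)| = |t| * (q * y) := by
        rw [abs_mul, abs_of_pos hX]
      constructor
      · have h5 := abs_sub_abs_le_abs_sub (t * (q * y)) (-Z)
        rw [abs_neg, sub_neg_eq_add, add_comm (t * (q * y)) Z, habs] at h5
        nlinarith
      · have h5 := abs_add_le Z (t * (q * y))
        rw [habs] at h5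
        nlinarith

/-- The last factor. -/
lemma Q_final [∀ i, NeZero (n i)] {S : Finset κ} {s c : ℕ} {Y : ℤ} (h : Q n S s (2 ^ c) Y) {j : κ}
    (hj : j ∉ S) (hY : Y ≤ n j) : s + c ≤ tau (∀ i, ZMod (n i)) := by
  obtain ⟨hIY, ι, _, g, z, hcard, hsupp, hrel⟩ := h
  have h1 := family_le_tau (G := ∀ i, ZMod (n i)) (ι := ι ⊕ Fin c)
    (Sum.elim (fun k => g k + Pi.single j ((z k : ℤ) : ZMod (n j)))
      (fun k => Pi.single j ((2 : ZMod (n j)) ^ (k : ℕ)))) (by
    intro ε hε hsum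
    set ε1 : ι → ℤ := fun k => ε (Sum.inl k) with hε1
    set ε2 : Fin c → ℤ := fun k => ε (Sum.inr k) with hε2
    have hb1 : ∀ k, |ε1 k| ≤ 1 := fun k => hε _
    have hb2 : ∀ k, |ε2 k| ≤ 1 := fun k => hε _
    simp only [Fintype.sum_sum_type, Sum.elim_inl, Sum.elim_inr] at hsum
    have hcoord : ∀ i, ∑ k, ε1 k • (g k i + (Pi.single j ((z k : ℤ) : ZMod (n j)) :
        ∀ i, ZMod (n i)) i) + ∑ k : Fin c, ε2 k •
        (Pi.single j ((2 : ZMod (n j)) ^ (k : ℕ)) : ∀ i, ZMod (n i)) i = 0 := by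
      intro i
      have := congrFun hsum i
      simpa [Finset.sum_apply] using this
    have hg0 : ∑ k, ε1 k • g k = 0 := by
      ext i
      rw [Finset.sum_apply]
      simp only [Pi.smul_apply, Pi.zero_apply]
      by_cases hi : i = j
      · subst hi
        apply sum_eq_zero
        intro k _
        rw [hsupp k _ hj, smul_zero]
      · have h1 := hcoord i
        simp only [Pi.single_eq_of_ne hi, smul_zero, sum_const_zero, add_zero] at h1
        exact h1
    have hdvd : (n j : ℤ) ∣ ∑ k, ε1 k * z k + ∑ k : Fin c, ε2 k * 2 ^ (k : ℕ) := by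
      have h1 := hcoord j
      simp only [hsupp _ _ hj, zero_add, Pi.single_eq_same] at h1
      rw [← ZMod.intCast_zmod_eq_zero_iff_dvd]
      rw [← h1]
      push_cast
      simp only [zsmul_eq_mul]
    have hb := bin_bound c ε2 hb2
    set Z := ∑ k, ε1 k * z k with hZ
    set W := ∑ k : Fin c, ε2 k * 2 ^ (k : ℕ) with hW
    have hW' := abs_lt.mp hb
    by_cases h1 : ε1 = 0
    · have hZ0 : Z = 0 := by rw [hZ, h1]; simp
      rw [hZ0, zero_add] at hdvd
      have hlt : |W| < n j := by linarith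
      have h2 : ε2 = 0 := bin_zero c ε2 hb2 (Int.eq_zero_of_abs_lt_dvd hdvd hlt)
      ext k
      rcases k with k | k
      · exact congrFun h1 k
      · exact congrFun h2 k
    · exfalso
      obtain ⟨h2, h3⟩ := hrel ε1 hb1 hg0 h1
      have hlt : |Z + W| < n j := by
        have := abs_add_le Z W
        linarith
      have h4 : Z + W = 0 := Int.eq_zero_of_abs_lt_dvd hdvd hlt
      have h5 : |Z| = |W| := by
        have : Z = -W := by linarith
        rw [this, abs_neg]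
      linarith)
  rwa [Fintype.card_sum, hcard, Fintype.card_fin] at h1

end

end Pool.Agent.Lib.MP_3a3582_co
end

section

set_option autoImplicit false
set_option linter.unusedSectionVars false
set_option linter.unusedVariables false

/-! Choice of the parameters in the packing construction. -/

namespace Pool.Agent.Lib.MP_3a3582_co

open Finset

lemma exists_two_pow (k : ℕ) (hk : 2 ≤ k) : ∃ b : ℕ, k ≤ 2 ^ b ∧ 2 ^ b ≤ 2 * k := by
  refine ⟨Nat.clog 2 k, Nat.le_pow_clog (by norm_num) k, ?_⟩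
  have h1 := Nat.pow_pred_clog_lt_self (b := 2) (by norm_num) (x := k) (by omega)
  have h2 : 0 < Nat.clog 2 k := Nat.clog_pos (by norm_num) hk
  have h3 : 2 ^ Nat.clog 2 k = 2 * 2 ^ (Nat.clog 2 k).pred := by
    rw [← pow_succ']
    congr 1
    exact (Nat.succ_pred_eq_of_pos h2).symm
  rw [h3]
  omega

lemma exists_ceil (n q : ℕ) (hq : 0 < q) : ∃ x : ℕ, n ≤ q * x ∧ q * x < n + q := by
  refine ⟨(n + q - 1) / q, ?_, ?_⟩
  · have h1 := Nat.lt_mul_div_succ (n + q - 1) hq
    rw [mul_add, mul_one] at h1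
    omega
  · have h1 := Nat.mul_div_le (n + q - 1) q
    omega

lemma params (T n : ℕ) (hT : 10 ≤ T) (hn : 0 < n) :
    ∃ a b q x e A : ℕ, 0 < q ∧ 0 < A ∧ q * x = n + e ∧ e < q ∧ 2 ^ b ≤ A * q ∧
      2 ^ a + A * e ≤ x ∧ 2 ^ (a + b) ≤ 2 * T * n ∧ q ≤ T ^ 4 ∧
      (A : ℝ) * n ≤ (1 + 8 / T) ^ 3 * 2 ^ (a + b) := by
  have hT0 : (0 : ℝ) < T := by
    have : (10 : ℝ) ≤ T := by exact_mod_cast hT
    linarith
  by_cases hsmall : n < T ^ 4
  · obtain ⟨b, hb1, hb2⟩ := exists_two_pow (T * n) (by nlinarith)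
    obtain ⟨A, hA1, hA2⟩ := exists_ceil (2 ^ b) n hn
    refine ⟨0, b, n, 1, 0, A, hn, ?_, by ring, hn, by rw [mul_comm]; exact hA1, by simp,
      by rw [zero_add]; linarith, hsmall.le, ?_⟩
    · by_contra hcon
      have : A = 0 := by omega
      rw [this] at hA1
      have := Nat.pos_of_ne_zero (pow_ne_zero b (two_ne_zero (α := ℕ)))
      omega
    · rw [zero_add]
      have h1 : (A : ℝ) * n ≤ 2 ^ b + n := by
        have : n * A ≤ 2 ^ b + n := hA2.le
        have h2 : ((n * A : ℕ) : ℝ) ≤ ((2 ^ b + n : ℕ) : ℝ) := by exact_mod_cast this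
        push_cast at h2
        linarith
      have h2 : (T : ℝ) * n ≤ 2 ^ b := by exact_mod_cast hb1
      have h3 : (n : ℝ) ≤ (1 / T) * 2 ^ b := by
        rw [one_div, ← div_eq_inv_mul, le_div_iff₀ hT0]
        linarith
      have h4 : (1 : ℝ) + 1 / T ≤ (1 + 8 / T) ^ 3 := by
        have : (0 : ℝ) < 1 / T := by positivity
        have e8 : (8 : ℝ) / T = 8 * (1 / T) := by ring
        rw [e8]
        nlinarith [sq_nonneg (1 / (T : ℝ))]
      calc (A : ℝ) * n ≤ 2 ^ b + (1 / T) * 2 ^ b := by linarith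
        _ = (1 + 1 / T) * 2 ^ b := by ring
        _ ≤ (1 + 8 / T) ^ 3 * 2 ^ b := mul_le_mul_of_nonneg_right h4 (by positivity)
  · push Not at hsmall
    obtain ⟨b, hb1, hb2⟩ := exists_two_pow (T ^ 2) (by nlinarith)
    have hT3 : 1000 ≤ T ^ 3 := by
      calc 1000 = 10 ^ 3 := by norm_num
        _ ≤ T ^ 3 := Nat.pow_le_pow_left hT 3
    have hT4 : 10 * T ^ 3 ≤ T ^ 4 := by
      calc 10 * T ^ 3 ≤ T * T ^ 3 := Nat.mul_le_mul_right _ hT
        _ = T ^ 4 := by ring
    have hnT : T ≤ n := by nlinarith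
    have hTpos : 0 < T := by omega
    set a := Nat.log 2 (n / T) with ha
    have hdiv0 : n / T ≠ 0 := by
      have : 1 ≤ n / T := (Nat.one_le_div_iff hTpos).mpr hnT
      omega
    have ha1 : T * 2 ^ a ≤ n := by
      have h1 : 2 ^ a ≤ n / T := Nat.pow_log_le_self 2 hdiv0
      calc T * 2 ^ a ≤ T * (n / T) := Nat.mul_le_mul_left _ h1
        _ ≤ n := Nat.mul_div_le n T
    have ha2 : n < T * (2 * 2 ^ a) := by
      have h1 : n / T < 2 ^ (a + 1) := Nat.lt_pow_succ_log_self (by norm_num) _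
      rw [Nat.div_lt_iff_lt_mul hTpos, pow_succ] at h1
      linarith
    have hpa : 0 < 2 ^ a := by positivity
    have hpb : 0 < 2 ^ b := by positivity
    set M := 2 ^ a + 2 * 2 ^ b with hM
    have hMpos : 0 < M := by omega
    set q := n / M with hq
    have hq1 : M * q ≤ n := Nat.mul_div_le n M
    have hq2 : n < M * (q + 1) := by
      have := Nat.lt_mul_div_succ n hMpos
      exact this
    have hTM : 10 * (T * M) ≤ 14 * n := by
      have : T * M = T * 2 ^ a + T * (2 * 2 ^ b) := by rw [hM]; ring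
      have h2 : T * (2 * 2 ^ b) ≤ T * (2 * (2 * T ^ 2)) := by
        apply Nat.mul_le_mul_left; omega
      have h3 : T * (2 * (2 * T ^ 2)) = 4 * T ^ 3 := by ring
      omega
    have hqT : T ≤ 2 * q := by
      by_contra hcon
      push Not at hcon
      have h1 : 2 * q + 1 ≤ T := by omega
      have h2 : 2 * n < (T + 1) * M := by nlinarith
      have h3 : 10 * ((T + 1) * M) ≤ 11 * (T * M) := by nlinarith
      omega
    have hq0 : 0 < q := by omega
    have hq2T : q ≤ 2 * T := by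
      by_contra hcon
      push Not at hcon
      have h1 : 2 ^ a * q ≤ M * q := Nat.mul_le_mul_right _ (by omega)
      have h2 : 2 ^ a * (2 * T) ≤ 2 ^ a * q := Nat.mul_le_mul_left _ hcon.le
      have h3 : 2 ^ a * (2 * T) = T * (2 * 2 ^ a) := by ring
      omega
    have hTT : 2 * T ≤ T ^ 2 := by nlinarith
    obtain ⟨x, hx1, hx2⟩ := exists_ceil n q hq0
    obtain ⟨A, hA1, hA2⟩ := exists_ceil (2 ^ b) q hq0
    have hA0 : 0 < A := by
      by_contra hcon
      have : A = 0 := by omega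
      rw [this] at hA1
      omega
    have hxM : M ≤ x := by
      by_contra hcon
      push Not at hcon
      have h1 : q * (x + 1) ≤ q * M := Nat.mul_le_mul_left _ hcon
      have h2 : q * (x + 1) = q * x + q := by ring
      have h3 : q * M = M * q := by ring
      omega
    refine ⟨a, b, q, x, q * x - n, A, hq0, hA0, by omega, by omega,
      by rw [mul_comm]; exact hA1, ?_, ?_, ?_, ?_⟩
    · have h1 : A * (q * x - n) ≤ A * q := Nat.mul_le_mul_left _ (by omega)
      have h2 : A * q = q * A := by ring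
      have h3 : M = 2 ^ a + 2 * 2 ^ b := hM
      omega
    · rw [pow_add]
      have h1 : T * (2 ^ a * 2 ^ b) ≤ T * (2 * T * n) := by
        calc T * (2 ^ a * 2 ^ b) = (T * 2 ^ a) * 2 ^ b := by ring
          _ ≤ n * (2 * T ^ 2) := Nat.mul_le_mul ha1 hb2
          _ = T * (2 * T * n) := by ring
      exact Nat.le_of_mul_le_mul_left h1 hTpos
    · calc q ≤ 2 * T := hq2T
        _ ≤ T ^ 2 := hTT
        _ ≤ T ^ 4 := Nat.pow_le_pow_right hTpos (by norm_num)
    · have e1 : (A : ℝ) * q ≤ (1 + 8 / T) * 2 ^ b := by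
        have h1 : (q : ℝ) * A < 2 ^ b + q := by exact_mod_cast hA2
        have h2 : (q : ℝ) ≤ 2 * T := by exact_mod_cast hq2T
        have h3 : (T : ℝ) ^ 2 ≤ 2 ^ b := by exact_mod_cast hb1
        have h4 : (q : ℝ) ≤ 8 / T * 2 ^ b := by
          rw [div_mul_eq_mul_div, le_div_iff₀ hT0]
          nlinarith
        linarith
      have e2 : ((q : ℝ) + 1) ≤ (1 + 8 / T) * q := by
        have h1 : (T : ℝ) ≤ 2 * q := by exact_mod_cast hqT
        have h2 : (1 : ℝ) ≤ 8 / T * q := by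
          rw [div_mul_eq_mul_div, le_div_iff₀ hT0]
          linarith
        linarith
      have e3 : (M : ℝ) ≤ (1 + 8 / T) * 2 ^ a := by
        have h0 : (M : ℝ) = 2 ^ a + 2 * 2 ^ b := by rw [hM]; push_cast; ring
        have h1 : (2 : ℝ) ^ b ≤ 2 * T ^ 2 := by exact_mod_cast hb2
        have h2 : (n : ℝ) < T * (2 * 2 ^ a) := by exact_mod_cast ha2
        have h3 : (T : ℝ) ^ 4 ≤ n := by exact_mod_cast hsmall
        have h4 : (T : ℝ) ^ 3 ≤ 2 * 2 ^ a := by
          have h5 : (T : ℝ) * (T : ℝ) ^ 3 ≤ (T : ℝ) * (2 * (2 : ℝ) ^ a) := by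
            have h55 : (T : ℝ) * (T : ℝ) ^ 3 = (T : ℝ) ^ 4 := by ring
            linarith
          exact le_of_mul_le_mul_left h5 hT0
        have h6 : (2 : ℝ) * 2 ^ b ≤ 8 / T * 2 ^ a := by
          rw [div_mul_eq_mul_div, le_div_iff₀ hT0]
          nlinarith
        rw [h0]
        linarith
      have e4 : (n : ℝ) ≤ M * (q + 1) := by exact_mod_cast hq2.le
      have hA0' : (0 : ℝ) ≤ A := Nat.cast_nonneg _
      have hu : (0 : ℝ) < 1 + 8 / T := by positivity
      calc (A : ℝ) * n ≤ A * (M * (q + 1)) := mul_le_mul_of_nonneg_left e4 hA0'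
        _ ≤ A * (((1 + 8 / T) * 2 ^ a) * ((1 + 8 / T) * q)) := by
            apply mul_le_mul_of_nonneg_left _ hA0'
            apply mul_le_mul e3 e2 (by positivity) (by positivity)
        _ = ((1 + 8 / T) ^ 2 * 2 ^ a) * (A * q) := by ring
        _ ≤ ((1 + 8 / T) ^ 2 * 2 ^ a) * ((1 + 8 / T) * 2 ^ b) :=
            mul_le_mul_of_nonneg_left e1 (by positivity)
        _ = (1 + 8 / T) ^ 3 * 2 ^ (a + b) := by rw [pow_add]; ring

section
variable {κ : Type} [Fintype κ] [DecidableEq κ] (n : κ → ℕ)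

lemma Q_induct (T : ℕ) (hT : 10 ≤ T) (hn : ∀ i, 0 < n i) (S : Finset κ) :
    ∃ s : ℕ, 2 ^ s ≤ ∏ i ∈ S, (2 * T * n i) ∧ ∀ I : ℕ, T ^ 5 ≤ I → ∃ Y : ℕ,
      Q n S s I Y ∧ (Y : ℝ) * ∏ i ∈ S, (n i : ℝ) ≤ (1 + 8 / T) ^ (4 * S.card) * 2 ^ s * I := by
  have hT0 : (0 : ℝ) < T := by
    have : (10 : ℝ) ≤ T := by exact_mod_cast hT
    linarith
  induction S using Finset.induction_on with
  | empty =>
    refine ⟨0, by simp, fun I hI => ⟨I, Q_empty n I, ?_⟩⟩
    simp
  | insert i S hi ih =>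
    obtain ⟨s, hs, hI⟩ := ih
    obtain ⟨a, b, q, x, e, A, hq, hA, hqx, heq, hJ, hx, h2, hqT, hAn⟩ := params T (n i) hT (hn i)
    refine ⟨s + (a + b), ?_, ?_⟩
    · rw [prod_insert hi, pow_add, mul_comm]
      exact Nat.mul_le_mul h2 hs
    · intro I hTI
      obtain ⟨Y, hQ, hYb⟩ := hI I hTI
      obtain ⟨y, hy1, hy2⟩ := exists_ceil Y q hq
      have hIY : I ≤ Y := by exact_mod_cast hQ.1
      have hTpow : 0 < T ^ 5 := by positivity
      have hI0 : 0 < I := by omega
      refine ⟨A * (q * y), ?_, ?_⟩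
      · have := Q_step n hQ hi (a := a) (b := b) (q := q) (x := x) (e := e) (A := A) (y := y)
          (by exact_mod_cast hI0) (hn i) (by exact_mod_cast hq) (by positivity)
          (by exact_mod_cast heq) (by exact_mod_cast hqx) (by exact_mod_cast hJ)
          (by exact_mod_cast hx) (by exact_mod_cast hA) (by exact_mod_cast hy1)
        exact_mod_cast this
      · rw [prod_insert hi, card_insert_of_notMem hi]
        have hY1 : ((q * y : ℕ) : ℝ) ≤ (1 + 8 / T) * Y := by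
          have h3 : q * y ≤ Y + q := hy2.le
          have h4 : T * q ≤ Y := by
            calc T * q ≤ T * T ^ 4 := Nat.mul_le_mul_left _ hqT
              _ = T ^ 5 := by ring
              _ ≤ Y := hTI.trans hIY
          have h5 : ((q * y : ℕ) : ℝ) ≤ Y + q := by exact_mod_cast h3
          have h6 : (T : ℝ) * q ≤ Y := by exact_mod_cast h4
          have h7 : (q : ℝ) ≤ 8 / T * Y := by
            rw [div_mul_eq_mul_div, le_div_iff₀ hT0]
            nlinarith [Nat.cast_nonneg (α := ℝ) Y]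
          linarith
        have hP : (0 : ℝ) ≤ ∏ i ∈ S, (n i : ℝ) := prod_nonneg (fun _ _ => Nat.cast_nonneg _)
        have hu : (0 : ℝ) < 1 + 8 / T := by positivity
        push_cast at hY1 ⊢
        calc (A : ℝ) * (q * y) * (n i * ∏ i ∈ S, (n i : ℝ))
            = (A * n i) * (q * y) * ∏ i ∈ S, (n i : ℝ) := by ring
          _ ≤ ((1 + 8 / T) ^ 3 * 2 ^ (a + b)) * ((1 + 8 / T) * Y) * ∏ i ∈ S, (n i : ℝ) := by
              apply mul_le_mul_of_nonneg_right _ hP
              apply mul_le_mul hAn hY1 (by positivity) (by positivity)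
          _ = ((1 + 8 / T) ^ 4 * 2 ^ (a + b)) * (Y * ∏ i ∈ S, (n i : ℝ)) := by ring
          _ ≤ ((1 + 8 / T) ^ 4 * 2 ^ (a + b)) * ((1 + 8 / T) ^ (4 * S.card) * 2 ^ s * I) :=
              mul_le_mul_of_nonneg_left hYb (by positivity)
          _ = (1 + 8 / T) ^ (4 * (S.card + 1)) * 2 ^ (s + (a + b)) * I := by
              rw [mul_add, pow_add (1 + 8 / (T : ℝ)), pow_add 2 s (a + b)]
              ring

theorem main_explicit (T : ℕ) (hT : 10 ≤ T) (hn : ∀ i, 0 < n i) (j : κ)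
    (hE : 2 ^ Fintype.card κ * T ^ (Fintype.card κ + 4) ≤ n j) (m : ℕ)
    (hm : (2 : ℝ) ^ m * (1 + 8 / T) ^ (4 * (Fintype.card κ - 1)) ≤ ∏ i, (n i : ℝ))
    (hm2 : ∏ i, n i < 2 ^ (m + 1)) : m ≤ tau (∀ i, ZMod (n i)) := by
  have hT0 : (0 : ℝ) < T := by
    have : (10 : ℝ) ≤ T := by exact_mod_cast hT
    linarith
  have : ∀ i, NeZero (n i) := fun i => ⟨(hn i).ne'⟩
  set r := Fintype.card κ with hr
  have hr1 : 1 ≤ r := Fintype.card_pos_iff.mpr ⟨j⟩
  obtain ⟨s, hs, hI⟩ := Q_induct n T hT hn (univ.erase j)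
  have hcard : (univ.erase j).card = r - 1 := by
    rw [card_erase_of_mem (mem_univ j), card_univ]
  have hprod : n j * ∏ i ∈ univ.erase j, n i = ∏ i, n i := mul_prod_erase univ n (mem_univ j)
  have hPpos : 0 < ∏ i ∈ univ.erase j, n i := prod_pos (fun i _ => hn i)
  rw [prod_mul_distrib, prod_const, hcard] at hs
  have hTpos : 0 < T := by omega
  have h1 : 2 ^ s * T ^ 5 < 2 ^ m := by
    have h2 : 2 ^ s * n j < (2 * T) ^ (r - 1) * 2 ^ (m + 1) := by
      calc 2 ^ s * n j ≤ ((2 * T) ^ (r - 1) * ∏ i ∈ univ.erase j, n i) * n j :=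
            Nat.mul_le_mul_right _ hs
        _ = (2 * T) ^ (r - 1) * ∏ i, n i := by rw [← hprod]; ring
        _ < (2 * T) ^ (r - 1) * 2 ^ (m + 1) :=
            Nat.mul_lt_mul_of_pos_left hm2 (by positivity)
    have h3 : 2 ^ r * T ^ (r + 4) = 2 * (2 * T) ^ (r - 1) * T ^ 5 := by
      obtain ⟨k, hk⟩ : ∃ k, r = k + 1 := ⟨r - 1, by omega⟩
      rw [hk, Nat.add_sub_cancel, mul_pow]
      ring
    have h4 : ((2 * T) ^ (r - 1) * 2) * (2 ^ s * T ^ 5) < ((2 * T) ^ (r - 1) * 2) * 2 ^ m := by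
      calc ((2 * T) ^ (r - 1) * 2) * (2 ^ s * T ^ 5) = 2 ^ s * (2 ^ r * T ^ (r + 4)) := by
            rw [h3]; ring
        _ ≤ 2 ^ s * n j := Nat.mul_le_mul_left _ hE
        _ < (2 * T) ^ (r - 1) * 2 ^ (m + 1) := h2
        _ = ((2 * T) ^ (r - 1) * 2) * 2 ^ m := by rw [pow_succ]; ring
    exact Nat.lt_of_mul_lt_mul_left h4
  have hsm : s ≤ m := by
    by_contra hcon
    push Not at hcon
    have h2 : 2 ^ m ≤ 2 ^ s := Nat.pow_le_pow_right (by norm_num) hcon.le
    have h3 : 1 ≤ T ^ 5 := Nat.one_le_pow _ _ hTpos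
    have h4 : 2 ^ m * 1 ≤ 2 ^ s * T ^ 5 := Nat.mul_le_mul h2 h3
    omega
  obtain ⟨c, rfl⟩ := Nat.exists_eq_add_of_le hsm
  have hc : T ^ 5 ≤ 2 ^ c := by
    rw [pow_add] at h1
    exact (Nat.lt_of_mul_lt_mul_left h1).le
  obtain ⟨Y, hQ, hY⟩ := hI (2 ^ c) hc
  have hY' : Y ≤ n j := by
    rw [hcard] at hY
    have h2 : (Y : ℝ) * ∏ i ∈ univ.erase j, (n i : ℝ) ≤ n j * ∏ i ∈ univ.erase j, (n i : ℝ) := by
      calc (Y : ℝ) * ∏ i ∈ univ.erase j, (n i : ℝ)
          ≤ (1 + 8 / T) ^ (4 * (r - 1)) * 2 ^ s * ((2 ^ c : ℕ) : ℝ) := hY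
        _ = 2 ^ (s + c) * (1 + 8 / T) ^ (4 * (r - 1)) := by rw [pow_add]; push_cast; ring
        _ ≤ ∏ i, (n i : ℝ) := hm
        _ = n j * ∏ i ∈ univ.erase j, (n i : ℝ) :=
            (mul_prod_erase univ (fun i => (n i : ℝ)) (mem_univ j)).symm
    have h3 : (0 : ℝ) < ∏ i ∈ univ.erase j, (n i : ℝ) :=
      prod_pos (fun i _ => by exact_mod_cast hn i)
    exact_mod_cast le_of_mul_le_mul_right h2 h3
  exact Q_final n (S := univ.erase j) (s := s) (c := c) (Y := Y) (by exact_mod_cast hQ)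
    (notMem_erase j univ) (by exact_mod_cast hY')

end

end Pool.Agent.Lib.MP_3a3582_co
end

section

set_option autoImplicit false
set_option linter.unusedSectionVars false
set_option linter.unusedVariables false

/-! `tau` is the integer part of the binary logarithm of the order of the group unless the order
is slightly above a power of two. -/

namespace Pool.Agent.Lib.MP_3a3582_co

open Finset

lemma card_pi_zmod {r : ℕ} (n : Fin r → ℕ) : Nat.card (∀ i, ZMod (n i)) = ∏ i, n i := by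
  rw [Nat.card_pi]
  exact prod_congr rfl (fun i _ => Nat.card_zmod (n i))

lemma tau_le_log_pi {r : ℕ} (n : Fin r → ℕ) (hn : ∀ i, 0 < n i) :
    tau (∀ i, ZMod (n i)) ≤ Nat.log 2 (∏ i, n i) := by
  have : ∀ i, NeZero (n i) := fun i => ⟨(hn i).ne'⟩
  rw [← card_pi_zmod]
  exact tau_le_log

theorem uniform (r : ℕ) (n : Fin r → ℕ) (hn : ∀ i, 0 < n i) (j : Fin r)
    (h : (1 + 256 * r * (n j : ℝ) ^ (-(1 / ((r : ℝ) + 4)))) * 2 ^ Nat.log 2 (∏ i, n i) ≤
      ((∏ i, n i : ℕ) : ℝ)) :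
    tau (∀ i, ZMod (n i)) = Nat.log 2 (∏ i, n i) := by
  apply le_antisymm (tau_le_log_pi n hn)
  set m := Nat.log 2 (∏ i, n i) with hm
  have hr1 : 1 ≤ r := by
    have := j.isLt
    omega
  have hr1' : (1 : ℝ) ≤ r := by exact_mod_cast hr1
  have hE0 : (0 : ℝ) < n j := by exact_mod_cast hn j
  set x : ℝ := (n j : ℝ) ^ (1 / ((r : ℝ) + 4)) with hx
  have hx0 : 0 < x := Real.rpow_pos_of_pos hE0 _
  have hxinv : (n j : ℝ) ^ (-(1 / ((r : ℝ) + 4))) = x⁻¹ := by
    rw [hx, Real.rpow_neg hE0.le]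
  rw [hxinv] at h
  have hNlt : ∏ i, n i < 2 ^ (m + 1) := Nat.lt_pow_succ_log_self (by norm_num) _
  have hNlt' : ((∏ i, n i : ℕ) : ℝ) < 2 * 2 ^ m := by
    have : ((∏ i, n i : ℕ) : ℝ) < ((2 ^ (m + 1) : ℕ) : ℝ) := by exact_mod_cast hNlt
    rw [pow_succ] at this
    push_cast at this ⊢
    linarith
  have h2m : (0 : ℝ) < 2 ^ m := by positivity
  have hlt : 256 * r * x⁻¹ < 1 := by
    have h1 : (1 + 256 * r * x⁻¹) * 2 ^ m < 2 * 2 ^ m := lt_of_le_of_lt h hNlt'
    have h2 := lt_of_mul_lt_mul_right h1 h2m.le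
    linarith
  have hxr : 256 * r < x := by
    rw [← div_eq_mul_inv, div_lt_one hx0] at hlt
    exact hlt
  set T := ⌊x / 2⌋₊ with hT
  have hT1 : (T : ℝ) ≤ x / 2 := Nat.floor_le (by positivity)
  have hT2 : x / 2 < T + 1 := Nat.lt_floor_add_one _
  have hT3 : x / 4 ≤ T := by linarith
  have hT10 : 10 ≤ T := by
    have : (10 : ℝ) ≤ T := by linarith
    exact_mod_cast this
  have hT0 : (0 : ℝ) < T := by linarith
  have hxpow : x ^ (r + 4) = n j := by
    rw [hx, ← Real.rpow_natCast, ← Real.rpow_mul hE0.le]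
    push_cast
    rw [one_div, inv_mul_cancel₀ (by positivity), Real.rpow_one]
  have hE : 2 ^ r * T ^ (r + 4) ≤ n j := by
    have h1 : (2 * (T : ℝ)) ^ (r + 4) ≤ n j := by
      rw [← hxpow]
      apply pow_le_pow_left₀ (by positivity)
      linarith
    have h2 : (2 * T) ^ (r + 4) ≤ n j := by exact_mod_cast h1
    calc 2 ^ r * T ^ (r + 4) ≤ 2 ^ (r + 4) * T ^ (r + 4) :=
          Nat.mul_le_mul_right _ (Nat.pow_le_pow_right (by norm_num) (by omega))
      _ = (2 * T) ^ (r + 4) := by rw [mul_pow]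
      _ ≤ n j := h2
  have hexp : (1 + 8 / (T : ℝ)) ^ (4 * (r - 1)) ≤ 1 + 256 * r * x⁻¹ := by
    have hy0 : (0 : ℝ) ≤ 128 * r * x⁻¹ := by positivity
    have hy1 : 128 * r * x⁻¹ < 1 / 2 := by linarith
    have h1 : (1 + 8 / (T : ℝ)) ^ (4 * (r - 1)) ≤ Real.exp (8 / T) ^ (4 * (r - 1)) := by
      apply pow_le_pow_left₀ (by positivity)
      have := Real.add_one_le_exp (8 / (T : ℝ))
      linarith
    have h2 : Real.exp (8 / T) ^ (4 * (r - 1)) = Real.exp ((4 * (r - 1) : ℕ) * (8 / T)) := by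
      rw [Real.exp_nat_mul]
    have h3 : ((4 * (r - 1) : ℕ) : ℝ) * (8 / T) ≤ 128 * r * x⁻¹ := by
      have h4 : ((4 * (r - 1) : ℕ) : ℝ) ≤ 4 * r := by
        have : 4 * (r - 1) ≤ 4 * r := by omega
        exact_mod_cast this
      have h5 : 8 / (T : ℝ) ≤ 32 * x⁻¹ := by
        rw [div_le_iff₀ hT0]
        have h6 : 32 * x⁻¹ * (x / 4) = 8 := by field_simp; norm_num
        have h7 : 32 * x⁻¹ * (x / 4) ≤ 32 * x⁻¹ * T :=
          mul_le_mul_of_nonneg_left hT3 (by positivity)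
        linarith
      calc ((4 * (r - 1) : ℕ) : ℝ) * (8 / T) ≤ (4 * r) * (32 * x⁻¹) :=
            mul_le_mul h4 h5 (by positivity) (by positivity)
        _ = 128 * r * x⁻¹ := by ring
    have h8 := Real.exp_le_exp.mpr h3
    have h9 := Real.exp_bound_div_one_sub_of_interval hy0 (by linarith)
    have h10 : 1 / (1 - 128 * r * x⁻¹) ≤ 1 + 256 * r * x⁻¹ := by
      rw [div_le_iff₀ (by linarith)]
      nlinarith
    linarith
  have key := main_explicit n T hT10 hn j (by rw [Fintype.card_fin]; exact hE) m (by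
    rw [Fintype.card_fin]
    calc (2 : ℝ) ^ m * (1 + 8 / T) ^ (4 * (r - 1)) ≤ 2 ^ m * (1 + 256 * r * x⁻¹) :=
          mul_le_mul_of_nonneg_left hexp h2m.le
      _ = (1 + 256 * r * x⁻¹) * 2 ^ m := by ring
      _ ≤ ((∏ i, n i : ℕ) : ℝ) := h
      _ = ∏ i, (n i : ℝ) := by push_cast; rfl) hNlt
  exact key

theorem fixed_rank (r : ℕ) : ∃ C c : ℝ, 0 < C ∧ 0 < c ∧ ∀ n : Fin r → ℕ, (∀ i, 0 < n i) →
    (1 + C * ((∏ i, n i : ℕ) : ℝ) ^ (-c)) * 2 ^ Nat.log 2 (∏ i, n i) ≤ ((∏ i, n i : ℕ) : ℝ) →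
    tau (∀ i, ZMod (n i)) = Nat.log 2 (∏ i, n i) := by
  rcases Nat.eq_zero_or_pos r with hr | hr
  · subst hr
    refine ⟨1, 1, one_pos, one_pos, fun n hn _ => ?_⟩
    have h1 := tau_le_log_pi n hn
    simp only [Finset.univ_eq_empty, Finset.prod_empty, Nat.log_one_right] at h1 ⊢
    omega
  · have hr' : (0 : ℝ) < r := by exact_mod_cast hr
    refine ⟨256 * r, 1 / (r * (r + 4)), by positivity, by positivity, fun n hn h => ?_⟩
    have : Nonempty (Fin r) := ⟨⟨0, hr⟩⟩
    obtain ⟨j, -, hj⟩ := exists_max_image (univ : Finset (Fin r)) n univ_nonempty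
    apply uniform r n hn j
    refine le_trans ?_ h
    apply mul_le_mul_of_nonneg_right _ (by positivity)
    have hN1 : ∏ i, n i ≤ n j ^ r := by
      calc ∏ i, n i ≤ ∏ _i : Fin r, n j := prod_le_prod' (fun i hi => hj i hi)
        _ = n j ^ r := by rw [prod_const, card_univ, Fintype.card_fin]
    have hN0 : (0 : ℝ) < ((∏ i, n i : ℕ) : ℝ) := by
      exact_mod_cast prod_pos (fun i _ => hn i)
    have hE0 : (0 : ℝ) < n j := by exact_mod_cast hn j
    have h1 : ((∏ i, n i : ℕ) : ℝ) ≤ (n j : ℝ) ^ (r : ℝ) := by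
      rw [Real.rpow_natCast]
      exact_mod_cast hN1
    have h2 : (n j : ℝ) ^ (-(1 / ((r : ℝ) + 4))) =
        ((n j : ℝ) ^ (r : ℝ)) ^ (-(1 / ((r : ℝ) * (r + 4)))) := by
      rw [← Real.rpow_mul hE0.le]
      congr 1
      field_simp
    have h3 : ((n j : ℝ) ^ (r : ℝ)) ^ (-(1 / ((r : ℝ) * (r + 4)))) ≤
        ((∏ i, n i : ℕ) : ℝ) ^ (-(1 / ((r : ℝ) * (r + 4)))) :=
      Real.rpow_le_rpow_of_nonpos hN0 h1 (by
        rw [neg_nonpos]; positivity)
    have h4 : 256 * (r : ℝ) * (n j : ℝ) ^ (-(1 / ((r : ℝ) + 4))) ≤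
        256 * (r : ℝ) * ((∏ i, n i : ℕ) : ℝ) ^ (-(1 / ((r : ℝ) * (r + 4)))) := by
      apply mul_le_mul_of_nonneg_left _ (by positivity)
      rw [h2]; exact h3
    linarith

end Pool.Agent.Lib.MP_3a3582_co
end
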