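import Mathlib
import Pool.Agent.Lib.MP_3a3582_co.Basic
import Pool.Agent.Lib.MP_3a3582_co.FixedRank

section

set_option autoImplicit false
set_option linter.unusedSectionVars false
set_option linter.unusedVariables false

/-! Upper bounds for dissociated sets by characters. -/

namespace Pool.Agent.Lib.MP_3a3582_co

open Finset

lemma addChar_sum {G : Type} [AddCommGroup G] (ψ : AddChar G ℂ) {ι : Type} (S : Finset ι)
    (g : ι → G) : ψ (∑ x ∈ S, g x) = ∏ x ∈ S, ψ (g x) := by
  classical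
  induction S using Finset.induction_on with
  | empty => simp
  | insert a S ha ih => rw [sum_insert ha, prod_insert ha, AddChar.map_add_eq_mul, ih]

section near
variable {p : ℕ} [hp : Fact p.Prime]

lemma stdAddChar_ne_one {c : ZMod p} (hc : c ≠ 0) : ZMod.stdAddChar c ≠ (1 : ℂ) := by
  intro h
  apply hc
  have h1 : ZMod.stdAddChar (N := p) c = ZMod.stdAddChar (N := p) 0 := by
    rw [h, AddChar.map_zero_eq_one]
  exact ZMod.injective_stdAddChar h1

/-- `∏_{j ≠ 0} (1 + ζ^{j c}) = 1` for odd `p` and `c ≠ 0`. -/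
lemma prod_one_add_char (hp2 : p ≠ 2) {c : ZMod p} (hc : c ≠ 0) :
    ∏ j ∈ (univ : Finset (ZMod p)).erase 0, (1 + ZMod.stdAddChar (j * c) : ℂ) = 1 := by
  have h2 : (2 : ZMod p) ≠ 0 := by
    intro h
    have h1 : ((2 : ℕ) : ZMod p) = 0 := by exact_mod_cast h
    rw [ZMod.natCast_eq_zero_iff] at h1
    have := (Nat.prime_dvd_prime_iff_eq hp.out Nat.prime_two).mp h1
    exact hp2 this
  have hne : ∏ j ∈ (univ : Finset (ZMod p)).erase 0, (1 - ZMod.stdAddChar (j * c) : ℂ) ≠ 0 := by
    rw [prod_ne_zero_iff]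
    intro j hj
    rw [mem_erase] at hj
    have h1 := stdAddChar_ne_one (mul_ne_zero hj.1 hc)
    exact sub_ne_zero.mpr (Ne.symm h1)
  have h3 : (∏ j ∈ (univ : Finset (ZMod p)).erase 0, (1 + ZMod.stdAddChar (j * c) : ℂ)) *
      ∏ j ∈ (univ : Finset (ZMod p)).erase 0, (1 - ZMod.stdAddChar (j * c) : ℂ) =
      ∏ j ∈ (univ : Finset (ZMod p)).erase 0, (1 - ZMod.stdAddChar (j * c) : ℂ) := by
    rw [← prod_mul_distrib]
    have h4 : ∀ j : ZMod p, (1 + ZMod.stdAddChar (j * c) : ℂ) * (1 - ZMod.stdAddChar (j * c)) =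
        1 - ZMod.stdAddChar ((2 * j) * c) := by
      intro j
      have : (2 * j) * c = j * c + j * c := by ring
      rw [this, AddChar.map_add_eq_mul]
      ring
    rw [prod_congr rfl (fun j _ => h4 j)]
    refine prod_nbij' (fun j => 2 * j) (fun j => 2⁻¹ * j) ?_ ?_ ?_ ?_ ?_
    · intro j hj
      rw [mem_erase] at hj ⊢
      exact ⟨mul_ne_zero h2 hj.1, mem_univ _⟩
    · intro j hj
      rw [mem_erase] at hj ⊢
      exact ⟨mul_ne_zero (inv_ne_zero h2) hj.1, mem_univ _⟩
    · intro j _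
      rw [← mul_assoc, inv_mul_cancel₀ h2, one_mul]
    · intro j _
      rw [← mul_assoc, mul_inv_cancel₀ h2, one_mul]
    · intro j _; rfl
  exact mul_right_cancel₀ hne (by rw [h3, one_mul])

variable {G : Type} [AddCommGroup G] [Fintype G] [DecidableEq G]

/-- For a nontrivial character, the product over a dissociated set is at most the number of
elements that are not subset sums. -/
lemma norm_prod_le {A : Finset G} (hA : Dissociated A) {ψ : AddChar G ℂ} (hψ : ψ ≠ 0) :
    ‖∏ a ∈ A, (1 + ψ a)‖ ≤ Fintype.card G - 2 ^ A.card := by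
  have h1 : ∏ a ∈ A, (1 + ψ a) = ∑ S ∈ A.powerset, ψ (∑ x ∈ S, x) := by
    rw [Finset.prod_one_add]
    apply sum_congr rfl
    intro S _
    rw [addChar_sum]
  have hinj : Set.InjOn (fun S : Finset G => ∑ x ∈ S, x) (A.powerset : Set (Finset G)) := by
    intro S hS T hT hST
    simp only [coe_powerset, Set.mem_preimage, Set.mem_powerset_iff, coe_subset] at hS hT
    have h1 := hA.coeff (fun x => (if x ∈ S then 1 else 0) - (if x ∈ T then 1 else 0)) (by
      intro a _
      split_ifs <;> norm_num) (by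
      simp only [sub_smul, sum_sub_distrib, ite_smul, one_smul, zero_smul]
      rw [← sum_filter, ← sum_filter, filter_mem_eq_inter, filter_mem_eq_inter,
        inter_eq_right.mpr hS, inter_eq_right.mpr hT]
      exact sub_eq_zero.mpr hST)
    ext x
    by_cases hx : x ∈ A
    · have h2 := h1 x hx
      by_cases hxS : x ∈ S <;> by_cases hxT : x ∈ T <;> simp [hxS, hxT] at h2 ⊢
    · exact ⟨fun hxS => absurd (hS hxS) hx, fun hxT => absurd (hT hxT) hx⟩
  set Sg := A.powerset.image (fun S => ∑ x ∈ S, x) with hSg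
  have hcard : Sg.card = 2 ^ A.card := by
    rw [hSg, card_image_of_injOn hinj, card_powerset]
  have h2 : ∑ S ∈ A.powerset, ψ (∑ x ∈ S, x) = ∑ x ∈ Sg, ψ x := by
    rw [hSg, sum_image hinj]
  have h3 : ∑ x ∈ Sg, ψ x = - ∑ x ∈ Sgᶜ, ψ x := by
    have h4 : ∑ x, ψ x = 0 := (AddChar.sum_eq_zero_iff_ne_zero).mpr hψ
    rw [← sum_add_sum_compl Sg] at h4
    exact eq_neg_of_add_eq_zero_left h4
  rw [h1, h2, h3, norm_neg]
  calc ‖∑ x ∈ Sgᶜ, ψ x‖ ≤ ∑ x ∈ Sgᶜ, ‖ψ x‖ := norm_sum_le _ _
    _ = ∑ x ∈ Sgᶜ, (1 : ℝ) := by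
        apply sum_congr rfl
        intro x _
        exact AddChar.norm_apply ψ x
    _ = (Fintype.card G : ℝ) - 2 ^ A.card := by
        rw [sum_const, nsmul_eq_mul, mul_one, card_compl, hcard, Nat.cast_sub]
        · push_cast; rfl
        · rw [← hcard]; exact card_le_univ _

end near

section near2
variable {p : ℕ} [hp : Fact p.Prime]
variable {G : Type} [AddCommGroup G] [Finite G]

/-- If many elements of a dissociated set lie in the kernel of a surjection onto `ℤ/p`, the order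
of the group exceeds `2 ^ |A|` by much. -/
lemma kernel_bound (hp2 : p ≠ 2) {A : Finset G} (hA : Dissociated A) (f : G →+ ZMod p)
    (hf : Function.Surjective f) [DecidableEq G] :
    2 ^ A.card + 2 ^ (A.filter (fun a => f a = 0)).card ≤ Nat.card G := by
  have := Fintype.ofFinite G
  rw [Nat.card_eq_fintype_card]
  set k := (A.filter (fun a => f a = 0)).card with hk
  -- the characters
  let ψ : ZMod p → AddChar G ℂ := fun j =>
    (ZMod.stdAddChar (N := p)).compAddMonoidHom ((AddMonoidHom.mulLeft j).comp f)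
  have hψ : ∀ j a, ψ j a = ZMod.stdAddChar (j * f a) := fun j a => rfl
  have hψ0 : ∀ j ∈ (univ : Finset (ZMod p)).erase 0, ψ j ≠ 0 := by
    intro j hj h0
    rw [mem_erase] at hj
    obtain ⟨x, hx⟩ := hf 1
    have h1 : ψ j x = 1 := by rw [h0]; rfl
    rw [hψ, hx, mul_one] at h1
    exact stdAddChar_ne_one hj.1 h1
  have hbound : ∀ j ∈ (univ : Finset (ZMod p)).erase 0,
      ‖∏ a ∈ A, (1 + ψ j a)‖ ≤ Fintype.card G - 2 ^ A.card := fun j hj => norm_prod_le hA (hψ0 j hj)
  have hprod : ∏ j ∈ (univ : Finset (ZMod p)).erase 0, ∏ a ∈ A, (1 + ψ j a) =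
      (2 ^ k : ℂ) ^ (p - 1) := by
    rw [prod_comm, ← prod_filter_mul_prod_filter_not A (fun a => f a = 0)]
    have h1 : ∀ a ∈ A.filter (fun a => f a = 0),
        ∏ j ∈ (univ : Finset (ZMod p)).erase 0, (1 + ψ j a) = 2 ^ (p - 1) := by
      intro a ha
      rw [mem_filter] at ha
      rw [prod_congr rfl (fun j _ => by rw [hψ, ha.2, mul_zero, AddChar.map_zero_eq_one]),
        prod_const, card_erase_of_mem (mem_univ _), card_univ, ZMod.card]
      norm_num
    have h2 : ∀ a ∈ A.filter (fun a => ¬ f a = 0),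
        ∏ j ∈ (univ : Finset (ZMod p)).erase 0, (1 + ψ j a) = 1 := by
      intro a ha
      rw [mem_filter] at ha
      rw [prod_congr rfl (fun j _ => by rw [hψ])]
      exact prod_one_add_char hp2 ha.2
    rw [prod_congr rfl h1, prod_congr rfl h2, prod_const, prod_const_one, mul_one, ← pow_mul,
      ← pow_mul, mul_comm]
  set δ : ℝ := Fintype.card G - 2 ^ A.card with hδ
  have hδ0 : 0 ≤ δ := by
    have := pow_card_le hA
    rw [Nat.card_eq_fintype_card] at this
    have h1 : ((2 ^ A.card : ℕ) : ℝ) ≤ Fintype.card G := by exact_mod_cast this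
    push_cast at h1
    linarith
  have h3 : ((2 : ℝ) ^ k) ^ (p - 1) ≤ δ ^ (p - 1) := by
    have h4 : ‖∏ j ∈ (univ : Finset (ZMod p)).erase 0, ∏ a ∈ A, (1 + ψ j a)‖ ≤ δ ^ (p - 1) := by
      rw [norm_prod]
      calc ∏ j ∈ (univ : Finset (ZMod p)).erase 0, ‖∏ a ∈ A, (1 + ψ j a)‖
          ≤ ∏ _j ∈ (univ : Finset (ZMod p)).erase 0, δ :=
            prod_le_prod (fun _ _ => norm_nonneg _) hbound
        _ = δ ^ (p - 1) := by
            rw [prod_const, card_erase_of_mem (mem_univ _), card_univ, ZMod.card]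
    rw [hprod, norm_pow, norm_pow] at h4
    simpa using h4
  have hp1 : p - 1 ≠ 0 := by
    have := hp.out.two_le
    omega
  have h5 : (2 : ℝ) ^ k ≤ δ := le_of_pow_le_pow_left₀ hp1 hδ0 h3
  have h6 : ((2 ^ A.card + 2 ^ k : ℕ) : ℝ) ≤ Fintype.card G := by
    push_cast
    linarith
  exact_mod_cast h6

/-- Pigeonhole over the lines of `(ℤ/p)²`. -/
lemma exists_functional (v : G →+ (ZMod p × ZMod p)) (hv : Function.Surjective v) (A : Finset G)
    [DecidableEq G] : ∃ f : G →+ ZMod p, Function.Surjective f ∧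
      A.card ≤ (p + 1) * (A.filter (fun a => f a = 0)).card := by
  -- functionals indexed by `Option (ZMod p)`
  let F : Option (ZMod p) → (G →+ ZMod p) := fun o => match o with
    | none => (AddMonoidHom.fst (ZMod p) (ZMod p)).comp v
    | some c => ((AddMonoidHom.snd (ZMod p) (ZMod p)).comp v) -
        (AddMonoidHom.mulLeft c).comp ((AddMonoidHom.fst (ZMod p) (ZMod p)).comp v)
  have hF0 : ∀ a, F none a = (v a).1 := fun a => rfl
  have hF1 : ∀ c a, F (some c) a = (v a).2 - c * (v a).1 := fun c a => rfl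
  have hsurj : ∀ o, Function.Surjective (F o) := by
    intro o y
    match o with
    | none =>
      obtain ⟨x, hx⟩ := hv (y, 0)
      exact ⟨x, by rw [hF0, hx]⟩
    | some c =>
      obtain ⟨x, hx⟩ := hv (0, y)
      exact ⟨x, by rw [hF1, hx]; simp⟩
  have hcover : ∀ a, ∃ o, F o a = 0 := by
    intro a
    by_cases h : (v a).1 = 0
    · exact ⟨none, by rw [hF0, h]⟩
    · refine ⟨some ((v a).2 * (v a).1⁻¹), ?_⟩
      rw [hF1, mul_assoc, inv_mul_cancel₀ h, mul_one, sub_self]
  have h1 : A.card ≤ ∑ o : Option (ZMod p), (A.filter (fun a => F o a = 0)).card := by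
    have h2 : A ⊆ univ.biUnion (fun o => A.filter (fun a => F o a = 0)) := by
      intro a ha
      obtain ⟨o, ho⟩ := hcover a
      rw [mem_biUnion]
      exact ⟨o, mem_univ _, by rw [mem_filter]; exact ⟨ha, ho⟩⟩
    exact (card_le_card h2).trans card_biUnion_le
  obtain ⟨o, -, ho⟩ := exists_max_image (univ : Finset (Option (ZMod p)))
    (fun o => (A.filter (fun a => F o a = 0)).card) univ_nonempty
  refine ⟨F o, hsurj o, h1.trans ?_⟩
  calc ∑ o : Option (ZMod p), (A.filter (fun a => F o a = 0)).card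
      ≤ ∑ _o : Option (ZMod p), (A.filter (fun a => F o a = 0)).card :=
        sum_le_sum (fun o' ho' => ho o' ho')
    _ = (p + 1) * (A.filter (fun a => F o a = 0)).card := by
        rw [sum_const, card_univ, Fintype.card_option, ZMod.card, smul_eq_mul]

theorem near_bound (hp2 : p ≠ 2) (v : G →+ (ZMod p × ZMod p)) (hv : Function.Surjective v) (m : ℕ)
    (hm : m ≤ tau G) : 2 ^ m + 2 ^ ((m + p) / (p + 1)) ≤ Nat.card G := by
  classical
  obtain ⟨A, hA, hAc⟩ := exists_tau (G := G)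
  obtain ⟨f, hf, hle⟩ := exists_functional v hv A
  have h1 := kernel_bound hp2 hA f hf
  have h2 : (m + p) / (p + 1) ≤ (A.filter (fun a => f a = 0)).card := by
    rw [Nat.div_le_iff_le_mul_add_pred (by omega)]
    have : (p + 1) * (A.filter (fun a => f a = 0)).card ≥ m := by omega
    omega
  have h3 : 2 ^ m ≤ 2 ^ A.card := Nat.pow_le_pow_right (by norm_num) (by omega)
  have h4 : 2 ^ ((m + p) / (p + 1)) ≤ 2 ^ (A.filter (fun a => f a = 0)).card :=
    Nat.pow_le_pow_right (by norm_num) h2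
  omega

end near2

end Pool.Agent.Lib.MP_3a3582_co
end

section

set_option autoImplicit false
set_option linter.unusedSectionVars false
set_option linter.unusedVariables false

/-! Riesz products: an upper bound for `tau` of groups of odd exponent. -/

namespace Pool.Agent.Lib.MP_3a3582_co

open Finset

lemma re_root_ge {e : ℕ} (he : Odd e) (he3 : 3 ≤ e) {z : ℂ} (hz : z ^ e = 1) :
    -Real.cos (Real.pi / e) ≤ z.re := by
  have he0 : (0 : ℝ) < e := by positivity
  have : NeZero e := ⟨by omega⟩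
  obtain ⟨k, hk, rfl⟩ := (Complex.isPrimitiveRoot_exp e (by omega)).eq_pow_of_pow_eq_one hz
  have h1 : (Complex.exp (2 * Real.pi * Complex.I / e) ^ k).re = Real.cos (2 * Real.pi * k / e) := by
    rw [← Complex.exp_nat_mul]
    have : (k : ℂ) * (2 * Real.pi * Complex.I / e) = ((2 * Real.pi * k / e : ℝ) : ℂ) * Complex.I := by
      push_cast; ring
    rw [this, Complex.exp_ofReal_mul_I_re]
  rw [h1, ← Real.cos_pi_sub]
  obtain ⟨j, hj⟩ := he
  have hpi := Real.pi_pos
  have hej : (e : ℝ) = 2 * j + 1 := by rw [hj]; push_cast; ring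
  by_cases hkj : k ≤ j
  · have hkj' : (k : ℝ) ≤ j := by exact_mod_cast hkj
    apply Real.cos_le_cos_of_nonneg_of_le_pi
    · positivity
    · have : Real.pi / e ≥ 0 := by positivity
      linarith
    · rw [div_le_iff₀ he0, sub_mul, div_mul_cancel₀ _ he0.ne', hej]
      nlinarith
  · push Not at hkj
    have hkj' : (j : ℝ) + 1 ≤ k := by exact_mod_cast hkj
    have hke : (k : ℝ) ≤ e := by exact_mod_cast hk.le
    have h2 : Real.cos (2 * Real.pi * k / e) = Real.cos (2 * Real.pi * (e - k) / e) := by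
      have : 2 * Real.pi * (e - k) / e = 2 * Real.pi - 2 * Real.pi * k / e := by
        field_simp
      rw [this, Real.cos_two_pi_sub]
    rw [h2]
    apply Real.cos_le_cos_of_nonneg_of_le_pi
    · apply div_nonneg _ he0.le
      apply mul_nonneg (by positivity) (by linarith)
    · have : Real.pi / e ≥ 0 := by positivity
      linarith
    · rw [div_le_iff₀ he0, sub_mul, div_mul_cancel₀ _ he0.ne', hej]
      nlinarith

theorem odd_exponent (G : Type) [AddCommGroup G] [Finite G] (e : ℕ) (he : Odd e) (he3 : 3 ≤ e)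
    (hG : ∀ x : G, e • x = 0) :
    (1 + 1 / Real.cos (Real.pi / e)) ^ tau G ≤ Nat.card G := by
  classical
  have := Fintype.ofFinite G
  rw [Nat.card_eq_fintype_card]
  obtain ⟨A, hA, hAc⟩ := exists_tau (G := G)
  have he0 : (0 : ℝ) < e := by positivity
  have hpi := Real.pi_pos
  have hcos : 0 < Real.cos (Real.pi / e) := by
    apply Real.cos_pos_of_mem_Ioo
    constructor
    · have : 0 < Real.pi / e := by positivity
      linarith
    · rw [div_lt_div_iff₀ he0 (by norm_num)]
      have : (3 : ℝ) ≤ e := by exact_mod_cast he3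
      nlinarith
  set t : ℝ := 1 / (2 * Real.cos (Real.pi / e)) with ht
  have ht0 : 0 < t := by positivity
  have h2t : 2 * t = 1 / Real.cos (Real.pi / e) := by rw [ht]; field_simp
  -- the factors
  let R : AddChar G ℂ → A → ℝ := fun ψ a => 1 + 2 * t * (ψ a).re
  have hR0 : ∀ ψ a, 0 ≤ R ψ a := by
    intro ψ a
    have h1 : (ψ (a : G)) ^ e = 1 := by
      rw [← AddChar.map_nsmul_eq_pow, hG, AddChar.map_zero_eq_one]
    have h2 := re_root_ge he he3 h1
    have h3 : 2 * t * (-Real.cos (Real.pi / e)) ≤ 2 * t * (ψ (a : G)).re :=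
      mul_le_mul_of_nonneg_left h2 (by positivity)
    have h4 : 2 * t * (-Real.cos (Real.pi / e)) = -1 := by
      rw [h2t]; field_simp
    show 0 ≤ 1 + 2 * t * (ψ (a : G)).re
    linarith
  let c : ℤ → ℂ := fun s => if s = 0 then 1 else (t : ℂ)
  have hfac : ∀ (ψ : AddChar G ℂ) (a : A), ((R ψ a : ℝ) : ℂ) =
      ∑ s ∈ Icc (-1 : ℤ) 1, c s * ψ (s • (a : G)) := by
    intro ψ a
    have hI : Icc (-1 : ℤ) 1 = {-1, 0, 1} := by decide
    rw [hI, sum_insert (by decide), sum_insert (by decide), sum_singleton]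
    simp only [c, R]
    norm_num
    rw [AddChar.map_neg_eq_conj]
    have h1 : (ψ (a : G)) + (starRingEnd ℂ) (ψ (a : G)) = ((2 * (ψ (a : G)).re : ℝ) : ℂ) :=
      Complex.add_conj _
    push_cast at h1
    linear_combination (-(t : ℂ)) * h1
  have htotal : ∑ ψ : AddChar G ℂ, ∏ a : A, ((R ψ a : ℝ) : ℂ) = Fintype.card G := by
    have h1 : ∀ ψ : AddChar G ℂ, ∏ a : A, ((R ψ a : ℝ) : ℂ) =
        ∑ ε ∈ Fintype.piFinset (fun _ : A => Icc (-1 : ℤ) 1),
          (∏ a, c (ε a)) * ψ (∑ a : A, ε a • (a : G)) := by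
      intro ψ
      rw [prod_congr rfl (fun a _ => hfac ψ a), prod_univ_sum]
      apply sum_congr rfl
      intro ε _
      rw [addChar_sum, prod_mul_distrib]
    rw [sum_congr rfl (fun ψ _ => h1 ψ), sum_comm]
    have h2 : ∀ ε ∈ Fintype.piFinset (fun _ : A => Icc (-1 : ℤ) 1),
        ∑ ψ : AddChar G ℂ, (∏ a, c (ε a)) * ψ (∑ a : A, ε a • (a : G)) =
          if ε = 0 then (Fintype.card G : ℂ) else 0 := by
      intro ε hε
      rw [← mul_sum, AddChar.sum_apply_eq_ite]
      by_cases h0 : ε = 0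
      · subst h0
        simp [c]
      · have hne : ∑ a : A, ε a • (a : G) ≠ 0 := by
          intro hs
          apply h0
          have h3 := hA.coeff (fun x => if hx : x ∈ A then ε ⟨x, hx⟩ else 0) (by
            intro a ha
            simp only [ha, dif_pos]
            have := Fintype.mem_piFinset.mp hε ⟨a, ha⟩
            rw [mem_Icc] at this
            exact abs_le.mpr this) (by
            rw [← hs, ← sum_coe_sort A]
            apply sum_congr rfl
            intro a _
            simp)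
          ext a
          have h4 := h3 a a.2
          simpa using h4
        rw [if_neg hne, if_neg h0, mul_zero]
    rw [sum_congr rfl h2, sum_ite_eq']
    rw [if_pos]
    rw [Fintype.mem_piFinset]
    intro a
    simp
  have htotal' : ∑ ψ : AddChar G ℂ, ∏ a : A, R ψ a = Fintype.card G := by
    exact_mod_cast htotal
  rw [← htotal', ← hAc]
  have h0 : ∏ a : A, R 0 a = (1 + 1 / Real.cos (Real.pi / e)) ^ A.card := by
    have h1 : ∀ a : A, R 0 a = 1 + 1 / Real.cos (Real.pi / e) := by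
      intro a
      show 1 + 2 * t * ((0 : AddChar G ℂ) (a : G)).re = _
      rw [AddChar.zero_apply, Complex.one_re, mul_one, h2t]
    rw [prod_congr rfl (fun a _ => h1 a), prod_const, card_univ, Fintype.card_coe]
  rw [← h0]
  exact single_le_sum (f := fun ψ => ∏ a : A, R ψ a)
    (fun ψ _ => prod_nonneg (fun a _ => hR0 ψ a)) (mem_univ (0 : AddChar G ℂ))

end Pool.Agent.Lib.MP_3a3582_co
end

section

set_option autoImplicit false
set_option linter.unusedSectionVars false
set_option linter.unusedVariables false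

/-! Consequences. -/

namespace Pool.Agent.Lib.MP_3a3582_co

open Finset

/-- The classical lower bound. -/
lemma sum_log_le {κ : Type} [Fintype κ] [DecidableEq κ] (n : κ → ℕ) (hn : ∀ i, 0 < n i) :
    ∑ i, Nat.log 2 (n i) ≤ tau (∀ i, ZMod (n i)) := by
  have : ∀ i, NeZero (n i) := fun i => ⟨(hn i).ne'⟩
  have h1 := family_le_tau (G := ∀ i, ZMod (n i)) (ι := Σ i, Fin (Nat.log 2 (n i)))
    (fun x => Pi.single x.1 ((2 : ZMod (n x.1)) ^ (x.2 : ℕ))) (by
    intro ε hε hs
    have h2 : ∀ i, (fun k : Fin (Nat.log 2 (n i)) => ε ⟨i, k⟩) = 0 := by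
      intro i
      apply bin_zero _ _ (fun k => hε _)
      have hb := bin_bound (Nat.log 2 (n i)) (fun k => ε ⟨i, k⟩) (fun k => hε _)
      have hle : ((2 : ℤ) ^ Nat.log 2 (n i)) ≤ n i := by
        exact_mod_cast Nat.pow_log_le_self 2 (hn i).ne'
      apply Int.eq_zero_of_abs_lt_dvd (m := (n i : ℤ)) _ (lt_of_lt_of_le hb hle)
      rw [← ZMod.intCast_zmod_eq_zero_iff_dvd]
      have h3 := congrFun hs i
      rw [Finset.sum_apply, Fintype.sum_sigma] at h3
      rw [sum_eq_single i] at h3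
      · simp only [Pi.smul_apply, Pi.single_eq_same, Pi.zero_apply, zsmul_eq_mul] at h3
        push_cast
        exact h3
      · intro j _ hj
        apply sum_eq_zero
        intro k _
        simp only [Pi.smul_apply]
        rw [Pi.single_eq_of_ne (Ne.symm hj), smul_zero]
      · intro h; exact absurd (mem_univ i) h
    ext ⟨i, k⟩
    exact congrFun (h2 i) k)
  rw [Fintype.card_sigma] at h1
  simpa using h1

theorem tau_five (r : ℕ) : tau (Fin r → ZMod 5) = 2 * r := by
  apply le_antisymm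
  · have h1 := odd_exponent (Fin r → ZMod 5) 5 (by decide) (by norm_num) (by
      intro x
      ext i
      simp only [Pi.smul_apply, Pi.zero_apply]
      have : ∀ y : ZMod 5, 5 • y = 0 := by decide
      exact this _)
    have h2 : Nat.card (Fin r → ZMod 5) = 5 ^ r := by
      rw [Nat.card_fun, Nat.card_zmod, Nat.card_fin]
    have h3 : (1 + 1 / Real.cos (Real.pi / (5 : ℕ))) = Real.sqrt 5 := by
      push_cast
      rw [Real.cos_pi_div_five]
      have h5 : Real.sqrt 5 ^ 2 = 5 := Real.sq_sqrt (by norm_num)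
      have h6 : 0 < Real.sqrt 5 := Real.sqrt_pos.mpr (by norm_num)
      field_simp
      nlinarith
    rw [h2, h3] at h1
    have h4 : ((5 ^ r : ℕ) : ℝ) = Real.sqrt 5 ^ (2 * r) := by
      rw [pow_mul, Real.sq_sqrt (by norm_num)]
      push_cast; rfl
    rw [h4] at h1
    have h5 : (1 : ℝ) < Real.sqrt 5 := by
      rw [Real.lt_sqrt (by norm_num)]; norm_num
    exact (pow_le_pow_iff_right₀ h5).mp h1
  · have h1 := sum_log_le (fun _ : Fin r => 5) (fun _ => by norm_num)
    have h2 : Nat.log 2 5 = 2 := by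
      rw [Nat.log_eq_iff (by norm_num)]; norm_num
    rw [sum_const, card_univ, Fintype.card_fin, h2, smul_eq_mul] at h1
    rw [mul_comm]
    exact h1

theorem tau_three (r : ℕ) : tau (Fin r → ZMod 3) = r := by
  apply le_antisymm
  · have h1 := odd_exponent (Fin r → ZMod 3) 3 (by decide) (by norm_num) (by
      intro x
      ext i
      simp only [Pi.smul_apply, Pi.zero_apply]
      have : ∀ y : ZMod 3, 3 • y = 0 := by decide
      exact this _)
    have h2 : Nat.card (Fin r → ZMod 3) = 3 ^ r := by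
      rw [Nat.card_fun, Nat.card_zmod, Nat.card_fin]
    have h3 : (1 + 1 / Real.cos (Real.pi / (3 : ℕ))) = 3 := by
      push_cast
      rw [Real.cos_pi_div_three]
      norm_num
    rw [h2, h3] at h1
    have h4 : ((3 ^ r : ℕ) : ℝ) = 3 ^ r := by push_cast; rfl
    rw [h4] at h1
    exact (pow_le_pow_iff_right₀ (by norm_num)).mp h1
  · have h1 := sum_log_le (fun _ : Fin r => 3) (fun _ => by norm_num)
    have h2 : Nat.log 2 3 = 1 := by
      rw [Nat.log_eq_iff (by norm_num)]; norm_num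
    rw [sum_const, card_univ, Fintype.card_fin, h2, smul_eq_mul, mul_one] at h1
    exact h1

/-- The classical lower bound for two factors. -/
lemma sum_log_le_two (n₁ n₂ : ℕ) (h1 : 0 < n₁) (h2 : 0 < n₂) :
    Nat.log 2 n₁ + Nat.log 2 n₂ ≤ tau (ZMod n₁ × ZMod n₂) := by
  have : NeZero n₁ := ⟨h1.ne'⟩
  have : NeZero n₂ := ⟨h2.ne'⟩
  have h3 := family_le_tau (G := ZMod n₁ × ZMod n₂)
    (ι := Fin (Nat.log 2 n₁) ⊕ Fin (Nat.log 2 n₂))
    (Sum.elim (fun k => ((2 : ZMod n₁) ^ (k : ℕ), 0)) (fun k => (0, (2 : ZMod n₂) ^ (k : ℕ)))) (by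
    intro ε hε hs
    rw [Fintype.sum_sum_type] at hs
    simp only [Sum.elim_inl, Sum.elim_inr] at hs
    have hs1 := congrArg Prod.fst hs
    have hs2 := congrArg Prod.snd hs
    rw [Prod.fst_add, Prod.fst_sum, Prod.fst_sum] at hs1
    rw [Prod.snd_add, Prod.snd_sum, Prod.snd_sum] at hs2
    simp only [Prod.smul_fst, smul_zero, sum_const_zero, add_zero, Prod.fst_zero] at hs1
    simp only [Prod.smul_snd, smul_zero, sum_const_zero, zero_add, Prod.snd_zero] at hs2
    simp only [zsmul_eq_mul] at hs1 hs2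
    have e1 : (fun k : Fin (Nat.log 2 n₁) => ε (Sum.inl k)) = 0 := by
      apply bin_zero _ _ (fun k => hε _)
      have hb := bin_bound (Nat.log 2 n₁) (fun k => ε (Sum.inl k)) (fun k => hε _)
      have hle : ((2 : ℤ) ^ Nat.log 2 n₁) ≤ n₁ := by
        exact_mod_cast Nat.pow_log_le_self 2 h1.ne'
      apply Int.eq_zero_of_abs_lt_dvd (m := (n₁ : ℤ)) _ (lt_of_lt_of_le hb hle)
      rw [← ZMod.intCast_zmod_eq_zero_iff_dvd]
      push_cast
      exact hs1
    have e2 : (fun k : Fin (Nat.log 2 n₂) => ε (Sum.inr k)) = 0 := by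
      apply bin_zero _ _ (fun k => hε _)
      have hb := bin_bound (Nat.log 2 n₂) (fun k => ε (Sum.inr k)) (fun k => hε _)
      have hle : ((2 : ℤ) ^ Nat.log 2 n₂) ≤ n₂ := by
        exact_mod_cast Nat.pow_log_le_self 2 h2.ne'
      apply Int.eq_zero_of_abs_lt_dvd (m := (n₂ : ℤ)) _ (lt_of_lt_of_le hb hle)
      rw [← ZMod.intCast_zmod_eq_zero_iff_dvd]
      push_cast
      exact hs2
    ext k
    rcases k with k | k
    · exact congrFun e1 k
    · exact congrFun e2 k)
  simpa using h3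

/-- The projection onto `(ℤ/p)²`. -/
lemma exists_surj {p n₁ n₂ : ℕ} (h1 : p ∣ n₁) (h2 : p ∣ n₂) :
    ∃ v : ZMod n₁ × ZMod n₂ →+ ZMod p × ZMod p, Function.Surjective v := by
  refine ⟨AddMonoidHom.prodMap (ZMod.castHom h1 (ZMod p)).toAddMonoidHom
    (ZMod.castHom h2 (ZMod p)).toAddMonoidHom, ?_⟩
  rintro ⟨x, y⟩
  obtain ⟨a, ha⟩ := ZMod.castHom_surjective h1 x
  obtain ⟨b, hb⟩ := ZMod.castHom_surjective h2 y
  exact ⟨(a, b), by ext <;> simp [ha, hb]⟩

theorem near_two (p n₁ n₂ m : ℕ) (hp : p.Prime) (hp2 : p ≠ 2) (h1 : p ∣ n₁) (h2 : p ∣ n₂)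
    (hn1 : 0 < n₁) (hn2 : 0 < n₂) (hlow : 2 ^ m ≤ n₁ * n₂)
    (hup : n₁ * n₂ < 2 ^ m + 2 ^ ((m + p) / (p + 1))) :
    tau (ZMod n₁ × ZMod n₂) = m - 1 := by
  have : Fact p.Prime := ⟨hp⟩
  have : NeZero n₁ := ⟨hn1.ne'⟩
  have : NeZero n₂ := ⟨hn2.ne'⟩
  obtain ⟨v, hv⟩ := exists_surj h1 h2
  apply le_antisymm
  · by_contra hcon
    push Not at hcon
    have h3 := near_bound hp2 v hv m (by omega)
    rw [Nat.card_prod, Nat.card_zmod, Nat.card_zmod] at h3
    omega
  · refine le_trans ?_ (sum_log_le_two n₁ n₂ hn1 hn2)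
    have h3 : n₁ < 2 ^ (Nat.log 2 n₁ + 1) := Nat.lt_pow_succ_log_self (by norm_num) _
    have h4 : n₂ < 2 ^ (Nat.log 2 n₂ + 1) := Nat.lt_pow_succ_log_self (by norm_num) _
    have h5 : 2 ^ m < 2 ^ (Nat.log 2 n₁ + 1 + (Nat.log 2 n₂ + 1)) := by
      rw [pow_add]
      calc 2 ^ m ≤ n₁ * n₂ := hlow
        _ < 2 ^ (Nat.log 2 n₁ + 1) * 2 ^ (Nat.log 2 n₂ + 1) := Nat.mul_lt_mul'' h3 h4
    have h6 := (Nat.pow_lt_pow_iff_right (by norm_num : 1 < 2)).mp h5
    omega

/-- An infinite family of groups of rank two with `tau` below the binary logarithm. -/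
theorem family_three (k : ℕ) :
    tau (ZMod 3 × ZMod ((2 ^ (6 * k + 3) + 1) / 3)) = 6 * k + 2 := by
  have h9 : 9 ∣ 2 ^ (6 * k + 3) + 1 := by
    have h1 : 2 ^ (6 * k + 3) % 9 = 8 := by
      rw [pow_add, pow_mul, Nat.mul_mod, Nat.pow_mod]
      norm_num
    omega
  obtain ⟨c, hc⟩ := h9
  have hd : (2 ^ (6 * k + 3) + 1) / 3 = 3 * c := by omega
  rw [hd]
  have hc0 : 0 < c := by
    rcases Nat.eq_zero_or_pos c with h | h
    · exact absurd hc (by rw [h]; simp)
    · exact h
  have := near_two 3 3 (3 * c) (6 * k + 3) (by norm_num) (by norm_num) (dvd_refl 3)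
    (dvd_mul_right 3 c) (by norm_num) (by omega) (by
      have h2 : 3 * (3 * c) = 2 ^ (6 * k + 3) + 1 := by rw [hc]; ring
      rw [h2]; exact Nat.le_succ _) (by
      have h3 : 3 * (3 * c) = 2 ^ (6 * k + 3) + 1 := by rw [hc]; ring
      rw [h3]
      have h2 : 2 ^ 1 ≤ 2 ^ ((6 * k + 3 + 3) / (3 + 1)) :=
        Nat.pow_le_pow_right (by norm_num) (by omega)
      omega)
  rw [this]
  omega

end Pool.Agent.Lib.MP_3a3582_co
end
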