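import Mathlib
import Pool.Agent.Lib.MP_3a3582_co.Basic

section

set_option autoImplicit false
set_option linter.unusedSectionVars false
set_option linter.unusedVariables false

/-! Lower bounds for `tau (H × (ℤ/3)^b)` from ternary codes; simplex codes. -/

namespace Pool.Agent.Lib.MP_3a3582_co

open Finset Module

/-- the ternary simplex code: all nonzero words have odd weight -/
lemma simplex (k : ℕ) : ∃ (M : Type) (_ : Fintype M) (_ : DecidableEq M)
    (f : (Fin k → ZMod 3) →ₗ[ZMod 3] (M → ZMod 3)), 2 * Fintype.card M + 1 = 3 ^ k ∧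
      ∀ q, q ≠ 0 → Odd (univ.filter fun x => f q x ≠ 0).card := by
  induction k with
  | zero =>
    refine ⟨PEmpty, inferInstance, inferInstance, 0, by simp, ?_⟩
    intro q hq
    exact absurd (Subsingleton.elim q 0) hq
  | succ k ih =>
    obtain ⟨M, _, _, f, hM, hf⟩ := ih
    let f' : (Fin (k + 1) → ZMod 3) →ₗ[ZMod 3] (Option (M × ZMod 3) → ZMod 3) :=
      { toFun := fun q y => match y with
          | none => q 0
          | some (x, t) => f (fun i => q i.succ) x + t * q 0
        map_add' := fun q q' => by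
          funext y
          rcases y with _ | ⟨x, t⟩
          · rfl
          · have h1 : (fun i : Fin k => (q + q') i.succ) =
                (fun i : Fin k => q i.succ) + (fun i : Fin k => q' i.succ) := rfl
            show f (fun i : Fin k => (q + q') i.succ) x + t * (q 0 + q' 0) =
              (f (fun i : Fin k => q i.succ) x + t * q 0) +
              (f (fun i : Fin k => q' i.succ) x + t * q' 0)
            rw [h1, map_add, Pi.add_apply]
            ring
        map_smul' := fun c q => by
          funext y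
          rcases y with _ | ⟨x, t⟩
          · rfl
          · have h1 : (fun i : Fin k => (c • q) i.succ) = c • (fun i : Fin k => q i.succ) := rfl
            show f (fun i : Fin k => (c • q) i.succ) x + t * (c * q 0) =
              c * (f (fun i : Fin k => q i.succ) x + t * q 0)
            rw [h1, map_smul, Pi.smul_apply, smul_eq_mul]
            ring }
    refine ⟨Option (M × ZMod 3), inferInstance, inferInstance, f', ?_, ?_⟩
    · rw [Fintype.card_option, Fintype.card_prod, ZMod.card, pow_succ, ← hM]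
      ring
    · intro q hq
      have hcard : (univ.filter fun y => f' q y ≠ 0).card =
          (if q 0 ≠ 0 then 1 else 0) +
          ∑ x : M, ∑ t : ZMod 3, if f (fun i => q i.succ) x + t * q 0 ≠ 0 then 1 else 0 := by
        rw [card_filter, Fintype.sum_option, Fintype.sum_prod_type]
        rfl
      rw [hcard]
      by_cases h0 : q 0 = 0
      · have hq' : (fun i : Fin k => q i.succ) ≠ 0 := by
          intro h
          apply hq
          funext i
          refine Fin.cases ?_ ?_ i
          · exact h0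
          · intro j
            exact congrFun h j
        have h1 := hf _ hq'
        rw [card_filter] at h1
        simp only [h0, mul_zero, add_zero, sum_const, card_univ, ZMod.card, ne_eq, not_true,
          if_false, zero_add]
        rw [← smul_sum, smul_eq_mul]
        exact Odd.mul (by decide) h1
      · have h1 : ∀ u s : ZMod 3, s ≠ 0 → (∑ t : ZMod 3, if u + t * s ≠ 0 then 1 else 0) = 2 := by
          decide
        rw [if_pos h0, sum_congr rfl (fun x _ => h1 _ _ h0), sum_const, smul_eq_mul]
        exact ⟨(univ : Finset M).card, by ring⟩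

/-- A ternary code with nonvanishing `H`-valued signed sums gives a dissociated set. -/
lemma lower_of_code {H : Type} [AddCommGroup H] [Finite H] {ι : Type} [Fintype ι] [DecidableEq ι]
    {V : Type} [AddCommGroup V] [Module (ZMod 3) V] [Module.Finite (ZMod 3) V]
    (f : V →ₗ[ZMod 3] (ι → ZMod 3)) (h : ι → H)
    (hf : ∀ v, v ≠ 0 → ∑ x, (f v x).valMinAbs • h x ≠ 0) (b : ℕ)
    (hb : Fintype.card ι ≤ b + finrank (ZMod 3) V) :
    b + finrank (ZMod 3) V ≤ tau (H × (Fin b → ZMod 3)) := by
  classical
  obtain ⟨b'', hb''⟩ : ∃ b'', Fintype.card ι + b'' = b + finrank (ZMod 3) V :=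
    ⟨b + finrank (ZMod 3) V - Fintype.card ι, by omega⟩
  let f' : V →ₗ[ZMod 3] (ι ⊕ Fin b'' → ZMod 3) :=
    { toFun := fun v => Sum.elim (f v) 0
      map_add' := fun v w => by
        funext y
        rcases y with y | y
        · simp
        · simp
      map_smul' := fun c v => by
        funext y
        rcases y with y | y
        · simp
        · simp }
  have hinj : Function.Injective f' := by
    rw [injective_iff_map_eq_zero]
    intro v hv
    by_contra hne
    apply hf v hne
    apply sum_eq_zero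
    intro x _
    have h1 : f v x = 0 := congrFun hv (Sum.inl x)
    rw [h1, ZMod.valMinAbs_zero, zero_smul]
  have hQ : finrank (ZMod 3) ((ι ⊕ Fin b'' → ZMod 3) ⧸ LinearMap.range f') =
      finrank (ZMod 3) (Fin b → ZMod 3) := by
    have h1 := Submodule.finrank_quotient_add_finrank (LinearMap.range f')
    rw [LinearMap.finrank_range_of_inj hinj, finrank_fintype_fun_eq_card, Fintype.card_sum,
      Fintype.card_fin] at h1
    rw [finrank_fin_fun]
    omega
  let φ := LinearEquiv.ofFinrankEq _ _ hQ
  let π : (ι ⊕ Fin b'' → ZMod 3) →ₗ[ZMod 3] (Fin b → ZMod 3) :=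
    φ.toLinearMap ∘ₗ (LinearMap.range f').mkQ
  have hπ : ∀ x, π x = 0 → ∃ v, f' v = x := by
    intro x hx
    have h1 : (LinearMap.range f').mkQ x = 0 := by
      apply φ.injective
      rw [map_zero]
      exact hx
    rw [Submodule.mkQ_apply, Submodule.Quotient.mk_eq_zero] at h1
    exact h1
  let g : ι ⊕ Fin b'' → H × (Fin b → ZMod 3) := fun i =>
    (Sum.elim h 0 i, π (Pi.single i 1))
  have hcard : b + finrank (ZMod 3) V = Fintype.card (ι ⊕ Fin b'') := by
    rw [Fintype.card_sum, Fintype.card_fin]
    omega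
  rw [hcard]
  apply family_le_tau g
  intro ε hε hsum
  have hfst : ∑ i, ε i • (g i).1 = 0 := by
    have h1 := congrArg Prod.fst hsum
    rw [Prod.fst_sum] at h1
    exact h1
  have hsnd : π (fun i => ((ε i : ℤ) : ZMod 3)) = 0 := by
    have h1 := congrArg Prod.snd hsum
    rw [Prod.snd_sum] at h1
    have h2 : (fun i => ((ε i : ℤ) : ZMod 3)) = ∑ i, ε i • (Pi.single i 1 : ι ⊕ Fin b'' → ZMod 3) := by
      funext j
      rw [Finset.sum_apply]
      simp only [Pi.smul_apply, Pi.single_apply, zsmul_eq_mul, mul_ite, mul_one, mul_zero]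
      rw [Finset.sum_ite_eq]
      simp
    rw [h2, map_sum]
    rw [Prod.snd_zero] at h1
    rw [← h1]
    apply sum_congr rfl
    intro i _
    rw [map_zsmul]
    rfl
  obtain ⟨v, hv⟩ := hπ _ hsnd
  have hval : ∀ n : ℤ, |n| ≤ 1 → ((n : ZMod 3)).valMinAbs = n := by
    intro n hn
    have h1 := abs_le.mp hn
    have h2 : n = -1 ∨ n = 0 ∨ n = 1 := by omega
    rcases h2 with rfl | rfl | rfl
    · decide
    · decide
    · decide
  by_cases hv0 : v = 0
  · funext i
    have h1 := congrFun hv i
    rw [hv0, map_zero] at h1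
    have h2 := hval (ε i) (hε i)
    rw [← h1] at h2
    simpa using h2.symm
  · exfalso
    apply hf v hv0
    rw [← hfst, Fintype.sum_sum_type]
    have h1 : ∑ y : Fin b'', ε (Sum.inr y) • (g (Sum.inr y)).1 = 0 := by
      apply sum_eq_zero
      intro y _
      simp [g]
    rw [h1, add_zero]
    apply sum_congr rfl
    intro x _
    have h2 : f v x = ((ε (Sum.inl x) : ℤ) : ZMod 3) := congrFun hv (Sum.inl x)
    rw [h2, hval _ (hε _)]
    rfl

/-- **Lower bound** by direct sums of simplex codes. -/
theorem lower_bound {a : ℕ} (k : Fin a → ℕ) (b : ℕ) (hb : ∑ i, (3 ^ k i - 1) / 2 ≤ b + ∑ i, k i) :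
    b + ∑ i, k i ≤ tau ((Fin a → ZMod 2) × (Fin b → ZMod 3)) := by
  classical
  choose M i1 i2 f hM hf using simplex
  let F : (∀ i : Fin a, Fin (k i) → ZMod 3) →ₗ[ZMod 3] ((Σ i : Fin a, M (k i)) → ZMod 3) :=
    { toFun := fun v y => f (k y.1) (v y.1) y.2
      map_add' := fun v w => by
        funext y
        simp
      map_smul' := fun c v => by
        funext y
        simp }
  have hfin : finrank (ZMod 3) (∀ i : Fin a, Fin (k i) → ZMod 3) = ∑ i, k i := by
    rw [finrank_pi_fintype]
    apply sum_congr rfl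
    intro i _
    exact finrank_fin_fun _
  rw [← hfin]
  apply lower_of_code F (fun y => (Pi.single y.1 1 : Fin a → ZMod 2))
  · intro v hv hsum
    obtain ⟨i, hi⟩ : ∃ i, v i ≠ 0 := by
      by_contra hcon
      push Not at hcon
      exact hv (funext hcon)
    have h1 := congrFun hsum i
    rw [Finset.sum_apply, Fintype.sum_sigma] at h1
    rw [Finset.sum_eq_single i] at h1
    · have h2 : ∀ y : ZMod 3, (y.valMinAbs • (1 : ZMod 2)) = if y ≠ 0 then 1 else 0 := by decide
      have h3 : ∑ x : M (k i), (if f (k i) (v i) x ≠ 0 then (1 : ZMod 2) else 0) = 0 := by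
        rw [Pi.zero_apply] at h1
        refine Eq.trans (sum_congr rfl ?_) h1
        intro x _
        have h5 : ((F v ⟨i, x⟩).valMinAbs • (Pi.single i 1 : Fin a → ZMod 2)) i =
            (f (k i) (v i) x).valMinAbs • (1 : ZMod 2) := by
          rw [Pi.smul_apply, Pi.single_eq_same]
          rfl
        exact (h2 _).symm.trans h5.symm
      rw [← Finset.natCast_card_filter] at h3
      have h4 := hf (k i) (v i) hi
      rw [ZMod.natCast_eq_zero_iff_even] at h3
      exact (Nat.not_even_iff_odd.mpr h4) h3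
    · intro j _ hj
      apply sum_eq_zero
      intro x _
      rw [Pi.smul_apply, Pi.single_eq_of_ne hj.symm, smul_zero]
    · intro h
      exact absurd (mem_univ _) h
  · rw [hfin, Fintype.card_sigma]
    refine le_trans (le_of_eq ?_) hb
    apply sum_congr rfl
    intro i _
    have := hM (k i)
    omega

end Pool.Agent.Lib.MP_3a3582_co
end

section

set_option autoImplicit false
set_option linter.unusedSectionVars false

/-! Upper bound for `tau (H × (ℤ/3)^b)`, `H` a `p`-group, `p ≠ 3`: the indicator function of `0` on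
the kernel code is a combination of few characters. -/

namespace Pool.Agent.Lib.MP_3a3582_co

open Finset Module

section Junta

variable {K : Type} [Field K] {ι : Type} [Fintype ι] [DecidableEq ι] (χ : AddChar (ZMod 3) K)

/-- The character `x ↦ χ (∑ e_a x_a)` of `(ℤ/3)^ι`. -/
def chr (e : ι → ZMod 3) : (ι → ZMod 3) → K := fun x => χ (∑ a, e a * x a)

/-- number of nonzero coordinates -/
def wt (e : ι → ZMod 3) : ℕ := (univ.filter fun a => e a ≠ 0).card

/-- combinations of characters involving at most `n` coordinates -/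
def W (n : ℕ) : Submodule K ((ι → ZMod 3) → K) :=
  Submodule.span K ((fun e => chr χ e) '' {e : ι → ZMod 3 | wt e ≤ n})

variable {χ}

lemma chr_mem {e : ι → ZMod 3} {n : ℕ} (h : wt e ≤ n) : chr χ e ∈ W χ n :=
  Submodule.subset_span ⟨e, h, rfl⟩

lemma W_mono {m n : ℕ} (h : m ≤ n) : (W χ m : Submodule K ((ι → ZMod 3) → K)) ≤ W χ n := by
  apply Submodule.span_mono
  apply Set.image_mono
  intro e he
  exact le_trans (show wt e ≤ m from he) h

lemma chr_mul (e f : ι → ZMod 3) : chr χ e * chr χ f = chr χ (e + f) := by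
  funext x
  simp only [chr, Pi.mul_apply, Pi.add_apply, add_mul, sum_add_distrib]
  rw [AddChar.map_add_eq_mul]

lemma wt_add (e f : ι → ZMod 3) : wt (e + f) ≤ wt e + wt f := by
  unfold wt
  refine le_trans (card_le_card ?_) (card_union_le _ _)
  intro a ha
  simp only [mem_filter, mem_univ, true_and, Pi.add_apply, mem_union] at ha ⊢
  by_contra hcon
  push Not at hcon
  rw [hcon.1, hcon.2] at ha
  exact ha (by simp)

lemma mul_mem_W {m n : ℕ} {F G : (ι → ZMod 3) → K} (hF : F ∈ W χ m) (hG : G ∈ W χ n) :
    F * G ∈ W χ (m + n) := by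
  unfold W at hF hG
  induction hF using Submodule.span_induction with
  | mem x hx =>
    obtain ⟨e, he, rfl⟩ := hx
    induction hG using Submodule.span_induction with
    | mem y hy =>
      obtain ⟨f, hf, rfl⟩ := hy
      dsimp only
      rw [chr_mul]
      apply chr_mem
      have h1 : wt e ≤ m := he
      have h2 : wt f ≤ n := hf
      have := wt_add e f
      omega
    | zero => simp
    | add y z _ _ hy hz => rw [mul_add]; exact Submodule.add_mem _ hy hz
    | smul c y _ hy => rw [mul_smul_comm]; exact Submodule.smul_mem _ c hy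
  | zero => simp
  | add y z _ _ hy hz => rw [add_mul]; exact Submodule.add_mem _ hy hz
  | smul c y _ hy => rw [smul_mul_assoc]; exact Submodule.smul_mem _ c hy

lemma one_mem_W (n : ℕ) : (1 : (ι → ZMod 3) → K) ∈ W χ n := by
  have h : chr χ (0 : ι → ZMod 3) = 1 := by
    funext x
    simp [chr]
  rw [← h]
  apply chr_mem
  simp [wt]

lemma const_mem_W (n : ℕ) (c : K) : (fun _ => c : (ι → ZMod 3) → K) ∈ W χ n := by
  have h : (fun _ => c : (ι → ZMod 3) → K) = c • (1 : (ι → ZMod 3) → K) := by
    funext x
    simp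
  rw [h]
  exact Submodule.smul_mem _ _ (one_mem_W n)

/-- a function of one coordinate -/
lemma single_mem_W (h3 : (3 : K) ≠ 0) (hχ : χ 1 ≠ 1) (a : ι) (v : ZMod 3) :
    (fun x : ι → ZMod 3 => if x a = v then (1 : K) else 0) ∈ W χ 1 := by
  set ω := χ 1 with hω
  have hω3 : ω ^ 3 = 1 := by
    rw [hω, ← AddChar.map_nsmul_eq_pow]
    have : (3 : ℕ) • (1 : ZMod 3) = 0 := by decide
    rw [this, AddChar.map_zero_eq_one]
  have hsum : 1 + ω + ω ^ 2 = 0 := by
    have h1 : (ω - 1) * (1 + ω + ω ^ 2) = 0 := by linear_combination hω3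
    rcases mul_eq_zero.mp h1 with h | h
    · exact absurd (sub_eq_zero.mp h) hχ
    · exact h
  have key : (fun x : ι → ZMod 3 => if x a = v then (1 : K) else 0) =
      (3 : K)⁻¹ • ((1 : (ι → ZMod 3) → K) + χ (-v) • chr χ (Pi.single a 1) +
        χ (v) • chr χ (Pi.single a (-1))) := by
    funext x
    have e1 : ∀ c : ZMod 3, ∑ i, (Pi.single a c : ι → ZMod 3) i * x i = c * x a := by
      intro c
      rw [Finset.sum_eq_single a]
      · simp
      · intro i _ hi
        rw [Pi.single_eq_of_ne hi, zero_mul]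
      · intro h
        exact absurd (mem_univ _) h
    simp only [Pi.smul_apply, Pi.add_apply, Pi.one_apply, smul_eq_mul, chr, e1]
    rw [← AddChar.map_add_eq_mul, ← AddChar.map_add_eq_mul]
    have e2 : -v + 1 * x a = x a - v := by ring
    have e3 : v + -1 * x a = -(x a - v) := by ring
    rw [e2, e3]
    have hv : ∀ y : ZMod 3, (if y = 0 then (1 : K) else 0) = (3 : K)⁻¹ * (1 + χ y + χ (-y)) := by
      intro y
      have hy : y = 0 ∨ y = 1 ∨ y = 2 := by
        revert y
        decide
      have h2 : χ 2 = ω ^ 2 := by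
        rw [hω, ← AddChar.map_nsmul_eq_pow]
        congr 1
      rcases hy with rfl | rfl | rfl
      · simp only [neg_zero, AddChar.map_zero_eq_one, if_true]
        field_simp
        norm_num
      · have : (-1 : ZMod 3) = 2 := by decide
        rw [this, h2, ← hω, hsum]
        simp
      · have : (-2 : ZMod 3) = 1 := by decide
        rw [this, h2, ← hω]
        have h4 : 1 + ω ^ 2 + ω = 0 := by linear_combination hsum
        rw [h4]
        have h5 : (2 : ZMod 3) ≠ 0 := by decide
        simp [h5]
    rw [← hv]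
    simp only [sub_eq_zero]
  rw [key]
  have hw : ∀ c : ZMod 3, wt (Pi.single a c : ι → ZMod 3) ≤ 1 := by
    intro c
    unfold wt
    rw [← card_singleton a]
    apply card_le_card
    intro i hi
    simp only [mem_filter, mem_univ, true_and] at hi
    rw [mem_singleton]
    by_contra hne
    exact hi (Pi.single_eq_of_ne hne _)
  apply Submodule.smul_mem
  apply Submodule.add_mem
  · apply Submodule.add_mem
    · exact one_mem_W 1
    · exact Submodule.smul_mem _ _ (chr_mem (hw 1))
  · exact Submodule.smul_mem _ _ (chr_mem (hw (-1)))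

end Junta

end Pool.Agent.Lib.MP_3a3582_co
end

section

set_option autoImplicit false
set_option linter.unusedSectionVars false
set_option linter.unusedVariables false

/-! Degree of functions on `ℤ/p^s` with values in a field of characteristic `p`. -/

namespace Pool.Agent.Lib.MP_3a3582_co

open Finset Module

section Deg

variable {K : Type} [Field K] {q : ℕ}

/-- difference operator -/
def Dop (h : ZMod q) : Module.End K (ZMod q → K) where
  toFun φ := fun y => φ (y + h) - φ y
  map_add' φ ψ := by
    funext y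
    simp only [Pi.add_apply]
    ring
  map_smul' c φ := by
    funext y
    simp only [Pi.smul_apply, smul_eq_mul, RingHom.id_apply]
    ring

/-- shift operator -/
def Sop (h : ZMod q) : Module.End K (ZMod q → K) where
  toFun φ := fun y => φ (y + h)
  map_add' φ ψ := rfl
  map_smul' c φ := rfl

lemma Dop_eq (h : ZMod q) : (Dop h : Module.End K (ZMod q → K)) = Sop h - 1 := rfl

lemma Sop_pow (h : ZMod q) (n : ℕ) : (Sop h : Module.End K (ZMod q → K)) ^ n = Sop (n • h) := by
  induction n with
  | zero =>
    ext φ y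
    simp [Sop]
  | succ n ih =>
    rw [pow_succ, ih]
    ext φ y
    simp only [Sop, Module.End.mul_apply, LinearMap.coe_mk, AddHom.coe_mk]
    congr 1
    rw [add_smul, one_smul]
    ring

/-- `φ` is killed by any `n` differences -/
def Q (n : ℕ) (φ : ZMod q → K) : Prop :=
  match n with
  | 0 => φ = 0
  | n + 1 => ∀ h : ZMod q, Q n (Dop h φ)

lemma Q_of_pow (n : ℕ) (φ : ZMod q → K) (h : ((Dop 1 : Module.End K (ZMod q → K)) ^ n) φ = 0)
    (hq : 0 < q) : Q n φ := by
  induction n generalizing φ with
  | zero => simpa [Q] using h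
  | succ n ih =>
    intro c
    apply ih
    have : NeZero q := ⟨hq.ne'⟩
    obtain ⟨k, hk⟩ : ∃ k : ℕ, k • (1 : ZMod q) = c := ⟨c.val, by simp⟩
    have h1 : (Dop c : Module.End K (ZMod q → K)) =
        (∑ i ∈ range k, (Sop 1 : Module.End K (ZMod q → K)) ^ i) * Dop 1 := by
      rw [Dop_eq, Dop_eq, ← hk, ← Sop_pow]
      exact (geom_sum_mul _ _).symm
    have hcomm : Commute ((Dop 1 : Module.End K (ZMod q → K)) ^ n)
        (∑ i ∈ range k, (Sop 1 : Module.End K (ZMod q → K)) ^ i) := by
      apply Commute.pow_left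
      apply Commute.sum_right
      intro i _
      apply Commute.pow_right
      rw [Dop_eq]
      exact (Commute.refl _).sub_left (Commute.one_left _)
    rw [← Module.End.mul_apply, h1, ← mul_assoc, hcomm.eq, mul_assoc, ← pow_succ,
      Module.End.mul_apply, h, map_zero]

/-- every function on `ℤ/p^s` is killed by `p^s` differences -/
lemma Q_top (p s : ℕ) [Fact p.Prime] [CharP K p] (φ : ZMod (p ^ s) → K) : Q (p ^ s) φ := by
  apply Q_of_pow
  · have : CharP (Module.End K (ZMod (p ^ s) → K)) p := by
      have hne : Nontrivial (ZMod (p ^ s) → K) := Function.nontrivial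
      exact charP_of_injective_algebraMap (FaithfulSMul.algebraMap_injective K _) p
    rw [Dop_eq, sub_pow_char_pow_of_commute _ _ (Commute.one_right _), Sop_pow, one_pow]
    have h0 : (p ^ s) • (1 : ZMod (p ^ s)) = 0 := by
      rw [nsmul_eq_mul, mul_one]
      exact ZMod.natCast_self _
    rw [h0]
    have h1 : (Sop 0 : Module.End K (ZMod (p ^ s) → K)) = 1 := by
      ext φ y
      simp [Sop]
    rw [h1]
    simp
  · exact pow_pos (Nat.Prime.pos Fact.out) _

end Deg

section Comb

variable {K : Type} [Field K] {ι : Type} [Fintype ι] [DecidableEq ι] {χ : AddChar (ZMod 3) K}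
  {q : ℕ}

lemma junta_of_Q (h3 : (3 : K) ≠ 0) (hχ : χ 1 ≠ 1) (u : ι → ZMod 3 → ZMod q) (s : Finset ι) :
    ∀ (n : ℕ) (φ : ZMod q → K), Q (n + 1) φ →
      (fun x : ι → ZMod 3 => φ (∑ a ∈ s, u a (x a))) ∈ W χ n := by
  induction s using Finset.induction_on with
  | empty =>
    intro n φ _
    simp only [sum_empty]
    exact const_mem_W n _
  | insert a s ha ih =>
    intro n φ hφ
    have key : (fun x : ι → ZMod 3 => φ (∑ b ∈ insert a s, u b (x b))) =
        (fun x : ι → ZMod 3 => φ (∑ b ∈ s, u b (x b))) +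
        ∑ v : ZMod 3, (fun x : ι → ZMod 3 => if x a = v then (1 : K) else 0) *
          (fun x : ι → ZMod 3 => (Dop (u a v) φ) (∑ b ∈ s, u b (x b))) := by
      funext x
      simp only [sum_insert ha, Pi.add_apply, Finset.sum_apply, Pi.mul_apply, ite_mul, one_mul,
        zero_mul, sum_ite_eq, mem_univ, if_true]
      simp only [Dop, LinearMap.coe_mk, AddHom.coe_mk]
      rw [add_comm (u a (x a))]
      ring
    rw [key]
    apply Submodule.add_mem
    · exact ih n φ hφ
    · apply Submodule.sum_mem
      intro v _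
      cases n with
      | zero =>
        have h0 : Dop (u a v) φ = 0 := hφ (u a v)
        rw [h0]
        have : (fun x : ι → ZMod 3 => if x a = v then (1 : K) else 0) *
            (fun x : ι → ZMod 3 => (0 : ZMod q → K) (∑ b ∈ s, u b (x b))) = 0 := by
          funext x
          simp
        rw [this]
        exact Submodule.zero_mem _
      | succ n =>
        rw [add_comm n 1]
        exact mul_mem_W (single_mem_W h3 hχ a v) (ih n _ (hφ (u a v)))

lemma junta_zmod (p s : ℕ) [Fact p.Prime] [CharP K p] (h3 : (3 : K) ≠ 0) (hχ : χ 1 ≠ 1)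
    (u : ι → ZMod 3 → ZMod (p ^ s)) (φ : ZMod (p ^ s) → K) :
    (fun x : ι → ZMod 3 => φ (∑ a, u a (x a))) ∈ W χ (p ^ s - 1) := by
  apply junta_of_Q h3 hχ u univ
  rw [Nat.sub_add_cancel (Nat.one_le_pow _ _ (Nat.Prime.pos Fact.out))]
  exact Q_top p s φ

/-- the indicator of a value in a product of cyclic `p`-groups -/
lemma junta_prod {r : ℕ} (p : ℕ) (e : Fin r → ℕ) [Fact p.Prime] [CharP K p] (h3 : (3 : K) ≠ 0)
    (hχ : χ 1 ≠ 1) (u : ι → ZMod 3 → (∀ i, ZMod (p ^ e i))) :
    (fun x : ι → ZMod 3 => if (∑ a, u a (x a)) = 0 then (1 : K) else 0) ∈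
      W χ (∑ i, (p ^ e i - 1)) := by
  have key : (fun x : ι → ZMod 3 => if (∑ a, u a (x a)) = 0 then (1 : K) else 0) =
      ∏ i, (fun x : ι → ZMod 3 =>
        (fun y : ZMod (p ^ e i) => if y = 0 then (1 : K) else 0) (∑ a, u a (x a) i)) := by
    funext x
    rw [Finset.prod_apply]
    have h1 : (∑ a, u a (x a)) = 0 ↔ ∀ i, ∑ a, u a (x a) i = 0 := by
      rw [funext_iff]
      simp only [Finset.sum_apply, Pi.zero_apply]
    by_cases hx : (∑ a, u a (x a)) = 0
    · rw [if_pos hx]
      rw [h1] at hx
      symm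
      apply prod_eq_one
      intro i _
      simp [hx i]
    · rw [if_neg hx]
      rw [h1] at hx
      push Not at hx
      obtain ⟨i, hi⟩ := hx
      symm
      apply prod_eq_zero (mem_univ i)
      simp [hi]
  rw [key]
  have aux : ∀ t : Finset (Fin r), (∏ i ∈ t, (fun x : ι → ZMod 3 =>
        (fun y : ZMod (p ^ e i) => if y = 0 then (1 : K) else 0) (∑ a, u a (x a) i))) ∈
      W χ (∑ i ∈ t, (p ^ e i - 1)) := by
    intro t
    induction t using Finset.induction_on with
    | empty =>
      simp only [prod_empty, sum_empty]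
      exact one_mem_W 0
    | insert i t hi ih =>
      rw [prod_insert hi, sum_insert hi]
      exact mul_mem_W (junta_zmod p (e i) h3 hχ (fun a y => u a y i)
        (fun y : ZMod (p ^ e i) => if y = 0 then (1 : K) else 0)) ih
  exact aux univ

end Comb

end Pool.Agent.Lib.MP_3a3582_co
end

section

set_option autoImplicit false
set_option linter.unusedSectionVars false
set_option linter.unusedVariables false

/-! Upper bound for `tau (H × (ℤ/3)^b)`, `H` a `p`-group, `p ≠ 3`. -/

namespace Pool.Agent.Lib.MP_3a3582_co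

open Finset Module

/-- size of a Hamming ball -/
lemma card_ball_le {ι : Type} [Fintype ι] [DecidableEq ι] (d : ℕ) :
    (univ.filter fun e : ι → ZMod 3 => wt e ≤ d).card ≤
      ∑ j ∈ range (d + 1), (Fintype.card ι).choose j * 2 ^ j := by
  have hsub : (univ.filter fun e : ι → ZMod 3 => wt e ≤ d) ⊆
      (range (d + 1)).biUnion fun j => (powersetCard j (univ : Finset ι)).biUnion fun S =>
        Fintype.piFinset (fun a => if a ∈ S then ({1, 2} : Finset (ZMod 3)) else {0}) := by
    intro e he
    rw [mem_filter] at he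
    rw [mem_biUnion]
    refine ⟨wt e, mem_range.mpr (by omega), ?_⟩
    rw [mem_biUnion]
    refine ⟨univ.filter fun a => e a ≠ 0, ?_, ?_⟩
    · rw [mem_powersetCard]
      exact ⟨subset_univ _, rfl⟩
    · rw [Fintype.mem_piFinset]
      intro a
      by_cases h : e a = 0
      · simp [h]
      · have h1 : a ∈ univ.filter (fun a => e a ≠ 0) := by simp [h]
        rw [if_pos h1]
        have h2 : ∀ y : ZMod 3, y ≠ 0 → y ∈ ({1, 2} : Finset (ZMod 3)) := by decide
        exact h2 _ h
  refine le_trans (card_le_card hsub) (le_trans card_biUnion_le ?_)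
  apply sum_le_sum
  intro j _
  refine le_trans card_biUnion_le ?_
  have h1 : ∀ S ∈ powersetCard j (univ : Finset ι),
      (Fintype.piFinset (fun a => if a ∈ S then ({1, 2} : Finset (ZMod 3)) else {0})).card =
        2 ^ j := by
    intro S hS
    rw [mem_powersetCard] at hS
    rw [Fintype.card_piFinset]
    have h2 : ∀ a : ι, (if a ∈ S then ({1, 2} : Finset (ZMod 3)) else {0}).card =
        if a ∈ S then 2 else 1 := by
      intro a
      split_ifs
      · decide
      · rfl
    rw [prod_congr rfl (fun a _ => h2 a), prod_ite_mem, univ_inter, prod_const, hS.2]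
  rw [sum_congr rfl h1, sum_const, card_powersetCard, card_univ, smul_eq_mul]

lemma finrank_W_le {K : Type} [Field K] {ι : Type} [Fintype ι] [DecidableEq ι]
    (χ : AddChar (ZMod 3) K) (d : ℕ) :
    finrank K (W χ d : Submodule K ((ι → ZMod 3) → K)) ≤
      ∑ j ∈ range (d + 1), (Fintype.card ι).choose j * 2 ^ j := by
  classical
  refine le_trans ?_ (card_ball_le (ι := ι) d)
  refine le_trans ?_ (card_image_le (f := fun e : ι → ZMod 3 => chr χ e))
  have h := finrank_span_finset_le_card (R := K)
    ((univ.filter fun e : ι → ZMod 3 => wt e ≤ d).image (fun e => chr χ e))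
  have h1 : (((univ.filter fun e : ι → ZMod 3 => wt e ≤ d).image (fun e => chr χ e) :
      Finset ((ι → ZMod 3) → K)) : Set ((ι → ZMod 3) → K)) =
      (fun e => chr χ e) '' {e : ι → ZMod 3 | wt e ≤ d} := by
    ext x
    simp
  rw [Set.finrank, h1] at h
  exact h

lemma exists_char (p : ℕ) (hp : p.Prime) (hp3 : p ≠ 3) :
    ∃ (K : Type) (_ : Field K) (_ : CharP K p) (χ : AddChar (ZMod 3) K), (3 : K) ≠ 0 ∧ χ 1 ≠ 1 := by
  have : Fact p.Prime := ⟨hp⟩
  refine ⟨AlgebraicClosure (ZMod p), inferInstance, ?_, ?_⟩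
  · exact charP_of_injective_algebraMap (algebraMap (ZMod p) (AlgebraicClosure (ZMod p))).injective p
  · have hchar : CharP (AlgebraicClosure (ZMod p)) p :=
      charP_of_injective_algebraMap (algebraMap (ZMod p) (AlgebraicClosure (ZMod p))).injective p
    have h3 : (3 : AlgebraicClosure (ZMod p)) ≠ 0 := by
      intro h
      have h1 : ((3 : ℕ) : AlgebraicClosure (ZMod p)) = 0 := by exact_mod_cast h
      rw [CharP.cast_eq_zero_iff _ p] at h1
      exact hp3 ((Nat.prime_dvd_prime_iff_eq hp Nat.prime_three).mp h1)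
    obtain ⟨ω, hω⟩ : ∃ ω : AlgebraicClosure (ZMod p), ω ^ 2 + ω + 1 = 0 := by
      have hdeg : (Polynomial.X ^ 2 + Polynomial.X + 1 :
          Polynomial (AlgebraicClosure (ZMod p))).degree ≠ 0 := by
        have : (Polynomial.X ^ 2 + Polynomial.X + 1 :
          Polynomial (AlgebraicClosure (ZMod p))).degree = 2 := by
          compute_degree!
        rw [this]
        norm_num
      obtain ⟨ω, hω⟩ := IsAlgClosed.exists_root _ hdeg
      refine ⟨ω, ?_⟩
      simpa [Polynomial.IsRoot] using hω
    have hω3 : ω ^ 3 = 1 := by linear_combination (ω - 1) * hω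
    refine ⟨AddChar.zmodChar 3 hω3, h3, ?_⟩
    have h1 : (AddChar.zmodChar 3 hω3) 1 = ω := by
      rw [AddChar.zmodChar_apply]
      have : (1 : ZMod 3).val = 1 := rfl
      rw [this, pow_one]
    rw [h1]
    intro h
    rw [h] at hω
    apply h3
    linear_combination hω

/-- **Upper bound.** -/
theorem upper_bound (p : ℕ) (hp : p.Prime) (hp3 : p ≠ 3) {r : ℕ} (e : Fin r → ℕ) (b : ℕ) :
    3 ^ tau ((∀ i, ZMod (p ^ e i)) × (Fin b → ZMod 3)) ≤
      3 ^ b * ∑ j ∈ range (∑ i, (p ^ e i - 1) + 1),
        (tau ((∀ i, ZMod (p ^ e i)) × (Fin b → ZMod 3))).choose j * 2 ^ j := by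
  classical
  have : Fact p.Prime := ⟨hp⟩
  have hne : ∀ i, NeZero (p ^ e i) := fun i => ⟨pow_ne_zero _ hp.ne_zero⟩
  obtain ⟨K, _, _, χ, h3, hχ⟩ := exists_char p hp hp3
  obtain ⟨A, hA, hAt⟩ := exists_tau (G := (∀ i, ZMod (p ^ e i)) × (Fin b → ZMod 3))
  rw [← hAt]
  let ι := {x // x ∈ A}
  let L : (ι → ZMod 3) →ₗ[ZMod 3] (Fin b → ZMod 3) :=
    { toFun := fun c => ∑ a, c a • a.1.2
      map_add' := fun c c' => by simp only [Pi.add_apply, add_smul, sum_add_distrib]
      map_smul' := fun c c' => by
        simp only [Pi.smul_apply, smul_eq_mul, RingHom.id_apply, smul_sum, mul_smul] }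
  let C := LinearMap.ker L
  have hcardι : Fintype.card ι = A.card := Fintype.card_coe A
  -- size of the code
  have hC : 3 ^ A.card ≤ 3 ^ b * Nat.card C := by
    have h1 := LinearMap.finrank_range_add_finrank_ker L
    have h2 : finrank (ZMod 3) (LinearMap.range L) ≤ b := by
      have := Submodule.finrank_le (LinearMap.range L)
      rwa [finrank_fin_fun] at this
    have h3' : finrank (ZMod 3) (ι → ZMod 3) = A.card := by
      rw [finrank_fintype_fun_eq_card, hcardι]
    have h4 : Nat.card C = 3 ^ finrank (ZMod 3) C := by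
      rw [Nat.card_eq_fintype_card, card_eq_pow_finrank (K := ZMod 3) (V := C), ZMod.card]
    rw [h4, ← pow_add]
    apply Nat.pow_le_pow_right (by norm_num)
    have h5 : finrank (ZMod 3) C = finrank (ZMod 3) (LinearMap.ker L) := rfl
    omega
  refine le_trans hC (Nat.mul_le_mul_left _ ?_)
  -- the span of few characters contains all point masses on `C`
  let R : ((ι → ZMod 3) → K) →ₗ[K] (C → K) := LinearMap.funLeft K K (fun c : C => (c : ι → ZMod 3))
  have hsurj : Submodule.map R (W χ (∑ i, (p ^ e i - 1))) = ⊤ := by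
    rw [eq_top_iff]
    rintro f -
    have hf : f = ∑ c : C, f c • (Pi.single c 1 : C → K) := by
      funext x
      simp only [Finset.sum_apply, Pi.smul_apply, Pi.single_apply, smul_eq_mul, mul_ite, mul_one,
        mul_zero]
      rw [Finset.sum_ite_eq]
      simp
    rw [hf]
    apply Submodule.sum_mem
    intro c0 _
    apply Submodule.smul_mem
    refine ⟨_, junta_prod p e h3 hχ
      (fun (a : ι) (y : ZMod 3) => ((y - (c0 : ι → ZMod 3) a).valMinAbs) • a.1.1), ?_⟩
    funext c
    simp only [R, LinearMap.funLeft_apply, Pi.single_apply]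
    congr 1
    apply propext
    constructor
    · intro hsum
      have hker : ∑ a : ι, ((c : ι → ZMod 3) a - (c0 : ι → ZMod 3) a) • a.1.2 = 0 := by
        have h1 : L ((c : ι → ZMod 3) - (c0 : ι → ZMod 3)) = 0 := by
          rw [map_sub, LinearMap.mem_ker.mp c.2, LinearMap.mem_ker.mp c0.2, sub_zero]
        exact h1
      let ε : (∀ i, ZMod (p ^ e i)) × (Fin b → ZMod 3) → ℤ := fun g =>
        if h : g ∈ A then ((c : ι → ZMod 3) ⟨g, h⟩ - (c0 : ι → ZMod 3) ⟨g, h⟩).valMinAbs else 0
      have hval : ∀ y : ZMod 3, |y.valMinAbs| ≤ 1 := by decide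
      have hεa : ∀ a : ι, ε a.1 = ((c : ι → ZMod 3) a - (c0 : ι → ZMod 3) a).valMinAbs := by
        intro a
        simp only [ε, a.2, dif_pos]
        rfl
      have h0 := hA.coeff ε (by
        intro g hg
        rw [hεa ⟨g, hg⟩]
        exact hval _) (by
        rw [← Finset.sum_coe_sort A (fun g => ε g • g)]
        have h1 : ∀ a : ι, ε a.1 • a.1 =
            (((c : ι → ZMod 3) a - (c0 : ι → ZMod 3) a).valMinAbs • a.1.1,
             ((c : ι → ZMod 3) a - (c0 : ι → ZMod 3) a) • a.1.2) := by
          intro a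
          rw [hεa a]
          refine Prod.ext rfl ?_
          rw [Prod.smul_snd]
          funext k
          show ((c : ι → ZMod 3) a - (c0 : ι → ZMod 3) a).valMinAbs • a.1.2 k =
            ((c : ι → ZMod 3) a - (c0 : ι → ZMod 3) a) * a.1.2 k
          rw [zsmul_eq_mul, ZMod.coe_valMinAbs]
        rw [sum_congr rfl (fun a _ => h1 a)]
        refine Prod.ext ?_ ?_
        · rw [Prod.fst_sum]
          exact hsum
        · rw [Prod.snd_sum]
          exact hker)
      apply Subtype.ext
      funext a
      have h1 := h0 a.1 a.2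
      rw [hεa a, ZMod.valMinAbs_eq_zero] at h1
      exact sub_eq_zero.mp h1
    · intro h
      rw [h]
      apply sum_eq_zero
      intro a _
      rw [sub_self, ZMod.valMinAbs_zero, zero_smul]
  have hfin : finrank K (C → K) ≤ finrank K (W χ (∑ i, (p ^ e i - 1)) :
      Submodule K ((ι → ZMod 3) → K)) := by
    have h1 : finrank K (⊤ : Submodule K (C → K)) = finrank K (C → K) := finrank_top K (C → K)
    rw [← h1, ← hsurj]
    exact Submodule.finrank_map_le R _
  rw [finrank_fintype_fun_eq_card] at hfin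
  rw [Nat.card_eq_fintype_card]
  refine le_trans hfin ?_
  rw [← hcardι]
  exact finrank_W_le χ _

end Pool.Agent.Lib.MP_3a3582_co
end

section

set_option autoImplicit false
set_option linter.unusedSectionVars false
set_option linter.unusedVariables false

/-! Groups with elementary abelian 3-part: final bounds. -/

namespace Pool.Agent.Lib.MP_3a3582_co

open Finset Module

lemma tau_le_of_injective {G G' : Type} [AddCommGroup G] [AddCommGroup G'] [Finite G] [Finite G']
    (φ : G →+ G') (hφ : Function.Injective φ) : tau G ≤ tau G' := by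
  classical
  obtain ⟨A, hA, hAt⟩ := exists_tau (G := G)
  rw [← hAt, ← Fintype.card_coe A]
  apply family_le_tau (fun x : {x // x ∈ A} => φ x.1)
  intro ε hε hsum
  have h1 : ∑ x : {x // x ∈ A}, ε x • x.1 = 0 := by
    apply hφ
    rw [map_sum, map_zero, ← hsum]
    apply sum_congr rfl
    intro x _
    rw [map_zsmul]
  let ε' : G → ℤ := fun g => if h : g ∈ A then ε ⟨g, h⟩ else 0
  have h2 : ∀ x : {x // x ∈ A}, ε' x.1 = ε x := by
    intro x
    simp only [ε', x.2, dif_pos]
  have h3 := hA.coeff ε' (by
    intro g hg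
    rw [h2 ⟨g, hg⟩]
    exact hε _) (by
    rw [← Finset.sum_coe_sort A (fun g => ε' g • g), ← h1]
    apply sum_congr rfl
    intro x _
    rw [h2])
  funext x
  rw [← h2 x]
  exact h3 x.1 x.2

lemma tau_congr {G G' : Type} [AddCommGroup G] [AddCommGroup G'] [Finite G] [Finite G']
    (φ : G ≃+ G') : tau G = tau G' :=
  le_antisymm (tau_le_of_injective φ.toAddMonoidHom φ.injective)
    (tau_le_of_injective φ.symm.toAddMonoidHom φ.symm.injective)

/-- upper bound for elementary 2-groups -/
lemma upper_two (a b : ℕ) :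
    3 ^ tau ((Fin a → ZMod 2) × (Fin b → ZMod 3)) ≤
      3 ^ b * ∑ j ∈ range (a + 1),
        (tau ((Fin a → ZMod 2) × (Fin b → ZMod 3))).choose j * 2 ^ j := by
  have h := upper_bound 2 Nat.prime_two (by norm_num) (fun _ : Fin a => 1) b
  have h1 : ∑ i : Fin a, (2 ^ 1 - 1) = a := by simp
  rw [h1] at h
  exact h

/-- exact value for `ℤ/2 × (ℤ/3)^b` -/
theorem tau_two_three (b k : ℕ) (h1 : 3 ^ k ≤ 2 * (b + k) + 1)
    (h2 : 2 * (b + k + 1) + 1 < 3 ^ (k + 1)) : tau (ZMod 2 × (Fin b → ZMod 3)) = b + k := by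
  have heq : tau (ZMod 2 × (Fin b → ZMod 3)) = tau ((Fin 1 → ZMod 2) × (Fin b → ZMod 3)) :=
    tau_congr (AddEquiv.prodCongr
      ({ toFun := fun x _ => x
         invFun := fun f => f 0
         left_inv := fun x => rfl
         right_inv := fun f => by
           funext i
           rw [Subsingleton.elim i 0]
         map_add' := fun x y => rfl } : ZMod 2 ≃+ (Fin 1 → ZMod 2)) (AddEquiv.refl _))
  rw [heq]
  apply le_antisymm
  · have h := upper_two 1 b
    set t := tau ((Fin 1 → ZMod 2) × (Fin b → ZMod 3)) with ht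
    by_contra hcon
    push Not at hcon
    obtain ⟨n, hn⟩ : ∃ n, t = b + (k + 1 + n) := ⟨t - (b + (k + 1)), by omega⟩
    rw [hn, pow_add] at h
    have h3 := Nat.le_of_mul_le_mul_left h (by positivity)
    rw [sum_range_succ, sum_range_one] at h3
    simp only [Nat.choose_zero_right, pow_zero, mul_one, Nat.choose_one_right, pow_one] at h3
    have h4 : ∀ n : ℕ, 2 * (b + k + 1) + 1 + 2 * n < 3 ^ (k + 1 + n) := by
      intro n
      induction n with
      | zero => simpa using h2
      | succ n ih =>
        rw [← add_assoc (k + 1) n 1, pow_succ]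
        omega
    have h5 := h4 n
    omega
  · have h := lower_bound (a := 1) (fun _ => k) b (by
      simp only [Finset.univ_unique, sum_const, card_singleton, one_smul]
      omega)
    simpa using h

/-- exact value for `ℤ/2 × (ℤ/3)^b`: `k` is the largest integer with `3 ^ k ≤ 2 (b + k) + 1` -/
theorem tau_two_three' (b : ℕ) : ∃ k, 3 ^ k ≤ 2 * (b + k) + 1 ∧
    2 * (b + k + 1) + 1 < 3 ^ (k + 1) ∧ tau (ZMod 2 × (Fin b → ZMod 3)) = b + k := by
  classical
  have hex : ∃ k, 2 * (b + k + 1) + 1 < 3 ^ (k + 1) := by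
    refine ⟨b + 1, ?_⟩
    have h : ∀ n : ℕ, 1 + 2 * n ≤ 3 ^ n := by
      intro n
      induction n with
      | zero => simp
      | succ n ih =>
        rw [pow_succ]
        omega
    have h1 := h b
    have h2 : 3 ^ (b + 1 + 1) = 9 * 3 ^ b := by ring
    rw [h2]
    omega
  have h1 : 3 ^ Nat.find hex ≤ 2 * (b + Nat.find hex) + 1 := by
    rcases Nat.eq_zero_or_pos (Nat.find hex) with h0 | h0
    · rw [h0]
      simp
    · have h2 := Nat.find_min hex (Nat.sub_lt h0 one_pos)
      rw [not_lt] at h2
      have h3 : Nat.find hex - 1 + 1 = Nat.find hex := by omega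
      rw [h3] at h2
      have h4 : b + (Nat.find hex - 1) + 1 = b + Nat.find hex := by omega
      rw [h4] at h2
      exact h2
  exact ⟨Nat.find hex, h1, Nat.find_spec hex, tau_two_three b _ h1 (Nat.find_spec hex)⟩

lemma ball_bound (a t : ℕ) (ha : 1 ≤ a) (hat : a ≤ t) :
    ((∑ j ∈ range (a + 1), t.choose j * 2 ^ j : ℕ) : ℝ) ≤
      ((t : ℝ) / a) ^ a * Real.exp (2 * a) := by
  have ha0 : (0 : ℝ) < a := by exact_mod_cast ha
  have ht0 : (0 : ℝ) < t := by exact_mod_cast (lt_of_lt_of_le ha hat)
  have hx0 : (0 : ℝ) < (a : ℝ) / t := by positivity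
  have hx1 : (a : ℝ) / t ≤ 1 := by
    rw [div_le_one ht0]
    exact_mod_cast hat
  have h1 : ((a : ℝ) / t) ^ a * ((∑ j ∈ range (a + 1), t.choose j * 2 ^ j : ℕ) : ℝ) ≤
      Real.exp (2 * a) := by
    push_cast
    rw [mul_sum]
    calc ∑ j ∈ range (a + 1), ((a : ℝ) / t) ^ a * ((t.choose j : ℝ) * 2 ^ j)
        ≤ ∑ j ∈ range (a + 1), (2 * ((a : ℝ) / t)) ^ j * 1 ^ (t - j) * (t.choose j : ℝ) := by
          apply sum_le_sum
          intro j hj
          have hj' : j ≤ a := by
            rw [mem_range] at hj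
            omega
          have h2 : ((a : ℝ) / t) ^ a ≤ ((a : ℝ) / t) ^ j := pow_le_pow_of_le_one hx0.le hx1 hj'
          rw [mul_pow, one_pow, mul_one]
          calc ((a : ℝ) / t) ^ a * ((t.choose j : ℝ) * 2 ^ j)
              ≤ ((a : ℝ) / t) ^ j * ((t.choose j : ℝ) * 2 ^ j) := by gcongr
            _ = 2 ^ j * ((a : ℝ) / t) ^ j * (t.choose j : ℝ) := by ring
      _ ≤ ∑ j ∈ range (t + 1), (2 * ((a : ℝ) / t)) ^ j * 1 ^ (t - j) * (t.choose j : ℝ) := by
          apply sum_le_sum_of_subset_of_nonneg
          · intro j hj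
            rw [mem_range] at hj ⊢
            omega
          · intro j _ _
            positivity
      _ = (2 * ((a : ℝ) / t) + 1) ^ t := (add_pow _ _ _).symm
      _ ≤ (Real.exp (2 * ((a : ℝ) / t))) ^ t := by
          gcongr
          exact Real.add_one_le_exp _
      _ = Real.exp (2 * a) := by
          rw [← Real.exp_nat_mul]
          congr 1
          field_simp
  have h3 : ((t : ℝ) / a) ^ a * ((a : ℝ) / t) ^ a = 1 := by
    rw [← mul_pow]
    have : (t : ℝ) / a * ((a : ℝ) / t) = 1 := by field_simp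
    rw [this, one_pow]
  calc ((∑ j ∈ range (a + 1), t.choose j * 2 ^ j : ℕ) : ℝ)
      = ((t : ℝ) / a) ^ a * (((a : ℝ) / t) ^ a *
          ((∑ j ∈ range (a + 1), t.choose j * 2 ^ j : ℕ) : ℝ)) := by
        rw [← mul_assoc, h3, one_mul]
    _ ≤ ((t : ℝ) / a) ^ a * Real.exp (2 * a) := by gcongr

/-- two-sided bound for `(ℤ/2)^a × (ℤ/3)^b`, `1 ≤ a ≤ b` -/
theorem tau_six (a b : ℕ) (ha : 1 ≤ a) (hab : a ≤ b) :
    |(tau ((Fin a → ZMod 2) × (Fin b → ZMod 3)) : ℝ) - b - a * Real.logb 3 ((b : ℝ) / a)| ≤
      3 * a := by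
  have hup := upper_two a b
  have hlow : ∀ k : ℕ, a * ((3 ^ k - 1) / 2) ≤ b + a * k →
      b + a * k ≤ tau ((Fin a → ZMod 2) × (Fin b → ZMod 3)) := by
    intro k hk
    have h := lower_bound (a := a) (fun _ => k) b (by simpa using hk)
    simpa using h
  have hcard : 2 ^ tau ((Fin a → ZMod 2) × (Fin b → ZMod 3)) ≤ 2 ^ a * 3 ^ b := by
    have h := pow_tau_le (G := (Fin a → ZMod 2) × (Fin b → ZMod 3))
    simpa [Nat.card_prod, Nat.card_eq_fintype_card] using h
  set t := tau ((Fin a → ZMod 2) × (Fin b → ZMod 3)) with ht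
  have ha0 : (0 : ℝ) < a := by exact_mod_cast ha
  have hb0 : (0 : ℝ) < b := by exact_mod_cast (lt_of_lt_of_le ha hab)
  have hl3 : (1 : ℝ) < Real.log 3 := by
    rw [Real.lt_log_iff_exp_lt (by norm_num)]
    have := Real.exp_one_lt_d9
    linarith
  have hl3' : (0 : ℝ) < Real.log 3 := by linarith
  have htb : b ≤ t := by
    have := hlow 0 (by simp)
    simpa using this
  have ht3 : t ≤ 3 * b := by
    have h1 : 2 ^ t ≤ 2 ^ (a + 2 * b) := by
      refine le_trans hcard ?_
      rw [pow_add, pow_mul]
      gcongr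
      norm_num
    have h2 := (Nat.pow_le_pow_iff_right (by norm_num)).mp h1
    omega
  have ht0 : (0 : ℝ) < t := by exact_mod_cast (lt_of_lt_of_le (lt_of_lt_of_le ha hab) htb)
  rw [abs_le]
  constructor
  · -- lower bound
    set κ := Nat.log 3 (b / a) with hκ
    have hba : 1 ≤ b / a := (Nat.one_le_div_iff ha).mpr hab
    have h1 : 3 ^ κ ≤ b / a := Nat.pow_log_le_self 3 (by omega)
    have h2 : b / a < 3 ^ (κ + 1) := Nat.lt_pow_succ_log_self (by norm_num) _
    have h3 := hlow κ (by
      have h4 : a * ((3 ^ κ - 1) / 2) ≤ a * (b / a) := Nat.mul_le_mul_left _ (by omega)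
      have h5 : a * (b / a) ≤ b := Nat.mul_div_le b a
      omega)
    have h4 : Real.logb 3 ((b : ℝ) / a) ≤ κ + 1 := by
      have h5 : ((b : ℝ) / a) ≤ 3 ^ (κ + 1) := by
        rw [div_le_iff₀ ha0]
        have h6 : b < (b / a + 1) * a := by
          have := Nat.div_add_mod b a
          have := Nat.mod_lt b (show a > 0 by omega)
          nlinarith
        have h7 : (b / a + 1) * a ≤ 3 ^ (κ + 1) * a := Nat.mul_le_mul_right _ (by omega)
        have h8 : b ≤ 3 ^ (κ + 1) * a := by omega
        exact_mod_cast h8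
      have h9 := Real.logb_le_logb_of_le (by norm_num : (1 : ℝ) < 3) (by positivity) h5
      have h10 : Real.logb 3 ((3 : ℝ) ^ (κ + 1)) = (κ + 1 : ℕ) := by
        rw [← Real.rpow_natCast, Real.logb_rpow (by norm_num) (by norm_num)]
      rw [h10] at h9
      exact_mod_cast h9
    have h5 : (b : ℝ) + a * κ ≤ t := by exact_mod_cast h3
    have h6 : (a : ℝ) * Real.logb 3 ((b : ℝ) / a) ≤ a * (κ + 1) :=
      mul_le_mul_of_nonneg_left h4 ha0.le
    nlinarith
  · -- upper bound
    have hV := ball_bound a t ha (le_trans hab htb)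
    have h1 : (3 : ℝ) ^ t ≤ 3 ^ b * (((t : ℝ) / a) ^ a * Real.exp (2 * a)) := by
      have h2 : ((3 ^ t : ℕ) : ℝ) ≤ ((3 ^ b * ∑ j ∈ range (a + 1), t.choose j * 2 ^ j : ℕ) : ℝ) :=
        Nat.cast_le.mpr hup
      rw [Nat.cast_mul, Nat.cast_pow, Nat.cast_pow] at h2
      have h3 : ((3 : ℕ) : ℝ) = (3 : ℝ) := by norm_num
      rw [h3] at h2
      exact le_trans h2 (mul_le_mul_of_nonneg_left hV (by positivity))
    have h2 := Real.log_le_log (by positivity) h1
    rw [Real.log_pow, Real.log_mul (by positivity) (by positivity), Real.log_pow,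
      Real.log_mul (by positivity) (by positivity), Real.log_pow, Real.log_exp] at h2
    have h3 : Real.log ((t : ℝ) / a) ≤ Real.log 3 + Real.log ((b : ℝ) / a) := by
      rw [← Real.log_mul (by norm_num) (by positivity)]
      apply Real.log_le_log (by positivity)
      rw [← mul_div_assoc]
      gcongr
      exact_mod_cast ht3
    have h4 : Real.logb 3 ((b : ℝ) / a) * Real.log 3 = Real.log ((b : ℝ) / a) := by
      unfold Real.logb
      field_simp
    have h5 : (t : ℝ) * Real.log 3 ≤
        b * Real.log 3 + a * (Real.log 3 + Real.logb 3 ((b : ℝ) / a) * Real.log 3) + 2 * a := by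
      rw [h4]
      nlinarith
    have h6 : (2 : ℝ) * a ≤ 2 * a * Real.log 3 := by nlinarith
    have h7 : (t : ℝ) * Real.log 3 ≤
        (b + a * (1 + Real.logb 3 ((b : ℝ) / a)) + 2 * a) * Real.log 3 := by nlinarith
    have h8 := le_of_mul_le_mul_right h7 hl3'
    linarith

end Pool.Agent.Lib.MP_3a3582_co
end
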